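import Mathlib

/-! Graphs given by a number, and the checkers (computed by the kernel) for the certificates. -/

namespace Pool.Agent.TW4

/-- The place of the pair i < j in the order (0,1), (0,2), (1,2), (0,3), (1,3), (2,3), ... -/
def place (i j : ℕ) : ℕ := j * (j - 1) / 2 + i

/-- The graph with vertices 0, ..., n-1 in which the pair i < j is an edge if and only if the
binary digit number `place i j` of the code `c` is 1. -/
def gr (n c : ℕ) : SimpleGraph (Fin n) where
  Adj i j := (i < j ∧ c.testBit (place i j) = true) ∨ (j < i ∧ c.testBit (place j i) = true)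
  symm := ⟨fun _ _ h => Or.symm h⟩
  loopless := ⟨fun _ h => by
    rcases h with h | h
    · exact lt_irrefl _ h.1
    · exact lt_irrefl _ h.1⟩

/-- adds the clique on `N` (bits) to the matrix `R`, for the rows in `M` -/
def upd : ℕ → ℕ → ℕ → ℕ → Option ℕ
  | 0, M, _, R => bif M == 0 then some R else none
  | f + 1, M, N, R => bif M == 0 then some R else
      upd f (M ^^^ 2 ^ M.log2) N (R ||| (N <<< (16 * M.log2)))

/-- elimination of the vertices given by the hexadecimal digits of `o`, fill-in degree at most k -/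
def elim (k : ℕ) : ℕ → ℕ → ℕ → ℕ → Bool
  | 0, _, A, _ => A == 0
  | s + 1, R, A, o => bif A == 0 then true else
      bif A.testBit (o % 16) then
        match upd k ((R >>> (16 * (o % 16))) &&& (A ^^^ 2 ^ (o % 16)))
            ((R >>> (16 * (o % 16))) &&& (A ^^^ 2 ^ (o % 16))) R with
        | some R' => elim k s R' (A ^^^ 2 ^ (o % 16)) (o / 16)
        | none => false
      else false

/-- 2^0 + 2^16 + ... + 2^240 -/
def colMask : ℕ := 0x0001000100010001000100010001000100010001000100010001000100010001

def delR (R u v : ℕ) : ℕ := (R ^^^ 2 ^ (16 * u + v)) ^^^ 2 ^ (16 * v + u)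

def conR (R u v : ℕ) : ℕ :=
  (R ||| (((R >>> (16 * u)) &&& 65535) <<< (16 * v))) |||
    (((R &&& (colMask <<< u)) <<< v) >>> u)

/-- the certificates of all edges; 56 bits for each elimination order -/
def chkEdges (k s R A : ℕ) : List (ℕ × ℕ) → ℕ → Bool
  | [], _ => true
  | e :: t, D => elim k s (delR R e.1 e.2) A D &&
      elim k s (conR R e.1 e.2) (A ^^^ 2 ^ e.1) (D >>> 56) && chkEdges k s R A t (D >>> 112)

def edges (n R : ℕ) : List (ℕ × ℕ) :=
  ((List.range n).flatMap fun v => (List.range v).map fun u => (u, v)).filter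
    fun e => R.testBit (16 * e.1 + e.2)

/-- `R` is the matrix of `gr n c` -/
def rowsOk (n c R : ℕ) : Bool :=
  (List.range n).all fun j => !R.testBit (16 * j + j) && (List.range j).all fun i =>
    (R.testBit (16 * i + j) == c.testBit (place i j)) &&
    (R.testBit (16 * j + i) == c.testBit (place i j))

/-- connectedness of a vertex set: `T` frontier, `M` not yet reached -/
def conn (R : ℕ) : ℕ → ℕ → ℕ → Bool
  | 0, _, M => M == 0
  | s + 1, T, M => bif M == 0 then true else
      bif T.testBit T.log2 then
        conn R s ((T ^^^ 2 ^ T.log2) ||| ((R >>> (16 * T.log2)) &&& M))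
          (M ^^^ ((R >>> (16 * T.log2)) &&& M))
      else false

/-- the union of the rows of the elements of `M` -/
def nbr (R : ℕ) : ℕ → ℕ → ℕ → ℕ
  | 0, _, a => a
  | s + 1, M, a => bif M.testBit M.log2 then
      nbr R s (M ^^^ 2 ^ M.log2) (a ||| (R >>> (16 * M.log2))) else a

def allBits (P : ℕ → Bool) : ℕ → ℕ → Bool
  | 0, M => M == 0
  | s + 1, M => bif M == 0 then true else P M.log2 && allBits P s (M ^^^ 2 ^ M.log2)

/-- no set of at most k vertices meets all members of the list -/
def noHit (s : ℕ) : ℕ → List ℕ → Bool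
  | 0, Bs => !Bs.isEmpty
  | _ + 1, [] => false
  | k + 1, b :: t => allBits (fun v => noHit s k (t.filter fun c => !c.testBit v)) s b

def bramOk (k n s R : ℕ) (Bs : List ℕ) : Bool :=
  (Bs.all fun b => Nat.blt b (2 ^ n) && b.testBit b.log2 &&
    conn R s (2 ^ b.log2) (b ^^^ 2 ^ b.log2)) &&
  (Bs.all fun b => let C := nbr R s b b; Bs.all fun c => !((C &&& c) == 0)) &&
  noHit s (k + 1) Bs

/-- the whole certificate -/
def certOk (k n c R D : ℕ) (Bs : List ℕ) : Bool :=
  Nat.ble n 16 && rowsOk n c R && bramOk k n n R Bs &&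
    (List.range n).all (fun v => !(((R >>> (16 * v)) &&& ((2 ^ n - 1) ^^^ 2 ^ v)) == 0)) &&
    chkEdges k n R (2 ^ n - 1) (edges n R) D

/-- the sum of `f 0`, ..., `f (n - 1)` -/
def sumTo (f : ℕ → ℕ) : ℕ → ℕ
  | 0 => 0
  | n + 1 => sumTo f n + f n

/-- numbers of walks of length 2 and 3 -/
def P2 (R n u v : ℕ) : ℕ :=
  sumTo (fun w => bif R.testBit (16 * u + w) && R.testBit (16 * w + v) then 1 else 0) n

def P3 (R n u v : ℕ) : ℕ :=
  sumTo (fun w => bif R.testBit (16 * u + w) then P2 R n w v else 0) n

/-- the sum of the cubes of the numbers of walks of length 3 -/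
def inv (R n : ℕ) : ℕ := sumTo (fun u => sumTo (fun v => P3 R n u v ^ 3) n) n

/-- data for a graph of a given order -/
structure Cert where
  code : ℕ
  rows : ℕ
  orders : ℕ
  bramble : List ℕ
  val : ℕ

def Cert.ok (n : ℕ) (x : Cert) : Bool :=
  certOk 4 n x.code x.rows x.orders x.bramble && (inv x.rows n == x.val)

end Pool.Agent.TW4
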