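import Pool.Agent.TW4.Defs
import Pool.Agent.TW4.Code

/-! The catalogue: codes of the graphs, by order. -/

namespace Pool.Agent.TW4

/-- the codes of the 1 graphs of order 6 -/
def codes6 : List ℕ := [
  32767]

/-- the codes of the 1 graphs of order 7 -/
def codes7 : List ℕ := [
  2063199]

/-- the codes of the 3 graphs of order 8 -/
def codes8 : List ℕ := [
  248997651, 261733203, 261969139]

/-- the codes of the 14 graphs of order 9 -/
def codes9 : List ℕ := [
  57001470030, 66749273336, 66782053801, 48474515535, 57002240591, 65725089422, 66799159390,
  66815662675, 57543549203, 63541137587, 63545354635, 65596590867, 59178929427, 59179191347]

/-- the codes of the 30 graphs of order 10 -/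
def codes10 : List ℕ := [
  23683642558547, 24370098090194, 24778859219083, 25342664328973, 31375882760835, 33312373235854,
  34130101339923, 15999965379466, 16547474086514, 25341473630862, 29160791214174, 29164086904926,
  33163667179177, 33167928592041, 33283967616787, 34130096690424, 34130100791721, 34138623617449,
  14901401843787, 23962395484275, 27378430003595, 30016084914571, 30265796331614, 33076726278931,
  33583591213171, 33592064485771, 33592114030987, 34131183028339, 34139705854046, 34687301593679]

/-- the codes of the 41 graphs of order 11 -/
def codes11 : List ℕ := [
  28733023247730318, 32110697198454414, 33796248406984843, 33796248495497491, 23384508430954817,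
  24229165268733260, 25918260503423619, 28442485288882386, 28724244271651410, 30411444877084435,
  30411445942397827, 30413636275345987, 31828972446437580, 31833344790253778, 32658267856046157,
  32674190352782657, 33784184876111052, 33797347469563713, 33797907463358221, 33839141129385987,
  33946339782713486, 34368552787248915, 34368552799635219, 34917235869943571, 34921728724120577,
  34926021526764035, 34926023405819915, 34926023440140051, 34929359502060035, 34929372436390163,
  34929429316248595, 34929440329461779, 34929566748063747, 34929578055852307, 34930388138272259,
  34930404306265363, 34930404306273331, 34930404306781971, 34930404372866323, 28774240992628915,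
  16921489362463311]

/-- the codes of the 25 graphs of order 12 -/
def codes12 : List ℕ := [
  50748815156322109579, 69179231752348308672, 56215210569687900435, 64874922215399907467,
  64875483244429136395, 65164837335892821590, 65164837335892821646, 65164837609696986710,
  65741296988621693070, 65741297262455238739, 66893092576677343363, 66897596449736927374,
  66897604116253550734, 69204565333004388491, 69204566428237498446, 24512258401913454625,
  33465128463574114579, 62285926652311570195, 62285927473724065555, 64642472782387087498,
  65163709761057818762, 69196687915721564435, 70355805692976226579, 71509290715417413747,
  30581983851112589391]

/-- the codes of the 16 graphs of order 13 -/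
def codes13 : List ℕ := [
  212512428326664503822414, 238507774509779672665512, 240869541249065112738369,
  240869541249065637161281, 250328100271743698011923, 250328100291500548622099,
  255048160923113702369859, 255064286061579502430787, 255065437850057652177011,
  255065437857184144296075, 265681543020499922463299, 269222164398198674753293,
  269222164398198674950539, 273945680416625870375051, 283345741187562795567187,
  283384649895805974612083]

/-- the codes of the 6 graphs of order 14 -/
def codes14 : List ℕ := [
  1083263654433131144041204107, 1431391838758859718001297547, 1624956882794207679004936587,
  2166409255458117960633813131, 1779704091030425592226414611, 2321170631956259111830653024]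

/-- all pairs (order, code) of the catalogue -/
def catalogue : List (ℕ × ℕ) :=
  codes6.map (fun c => (6, c)) ++
    codes7.map (fun c => (7, c)) ++
    codes8.map (fun c => (8, c)) ++
    codes9.map (fun c => (9, c)) ++
    codes10.map (fun c => (10, c)) ++
    codes11.map (fun c => (11, c)) ++
    codes12.map (fun c => (12, c)) ++
    codes13.map (fun c => (13, c)) ++
    codes14.map (fun c => (14, c))

end Pool.Agent.TW4
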