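import Pool.Agent.TW4.Data.D6a
import Pool.Agent.TW4.Data.D7a
import Pool.Agent.TW4.Data.D8a
import Pool.Agent.TW4.Data.D9a
import Pool.Agent.TW4.Data.D9b
import Pool.Agent.TW4.Data.D10a
import Pool.Agent.TW4.Data.D10b
import Pool.Agent.TW4.Data.D10c
import Pool.Agent.TW4.Data.D10d
import Pool.Agent.TW4.Data.D11a
import Pool.Agent.TW4.Data.D11b
import Pool.Agent.TW4.Data.D11c
import Pool.Agent.TW4.Data.D11d
import Pool.Agent.TW4.Data.D11e
import Pool.Agent.TW4.Data.D12a
import Pool.Agent.TW4.Data.D12b
import Pool.Agent.TW4.Data.D12c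
import Pool.Agent.TW4.Data.D13a
import Pool.Agent.TW4.Data.D13b
import Pool.Agent.TW4.Data.D14a
import Pool.Agent.TW4.Catalogue

/-! The catalogue is certified. -/

namespace Pool.Agent.TW4

theorem good6 : Good 6 codes6 := by
  refine good_of (L6a) ?_ (by decide +kernel) (by decide +kernel)
  intro x hx
  exact List.all_eq_true.1 L6a_ok x hx

theorem good7 : Good 7 codes7 := by
  refine good_of (L7a) ?_ (by decide +kernel) (by decide +kernel)
  intro x hx
  exact List.all_eq_true.1 L7a_ok x hx

theorem good8 : Good 8 codes8 := by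
  refine good_of (L8a) ?_ (by decide +kernel) (by decide +kernel)
  intro x hx
  exact List.all_eq_true.1 L8a_ok x hx

theorem good9 : Good 9 codes9 := by
  refine good_of (L9a ++ L9b) ?_ (by decide +kernel) (by decide +kernel)
  intro x hx
  simp only [List.mem_append] at hx
  rcases hx with h | h
  · exact List.all_eq_true.1 L9a_ok x h
  · exact List.all_eq_true.1 L9b_ok x h

theorem good10 : Good 10 codes10 := by
  refine good_of (L10a ++ L10b ++ L10c ++ L10d) ?_ (by decide +kernel) (by decide +kernel)
  intro x hx
  simp only [List.mem_append] at hx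
  rcases hx with ((h | h) | h) | h
  · exact List.all_eq_true.1 L10a_ok x h
  · exact List.all_eq_true.1 L10b_ok x h
  · exact List.all_eq_true.1 L10c_ok x h
  · exact List.all_eq_true.1 L10d_ok x h

theorem good11 : Good 11 codes11 := by
  refine good_of (L11a ++ L11b ++ L11c ++ L11d ++ L11e) ?_ (by decide +kernel) (by decide +kernel)
  intro x hx
  simp only [List.mem_append] at hx
  rcases hx with (((h | h) | h) | h) | h
  · exact List.all_eq_true.1 L11a_ok x h
  · exact List.all_eq_true.1 L11b_ok x h
  · exact List.all_eq_true.1 L11c_ok x h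
  · exact List.all_eq_true.1 L11d_ok x h
  · exact List.all_eq_true.1 L11e_ok x h

theorem good12 : Good 12 codes12 := by
  refine good_of (L12a ++ L12b ++ L12c) ?_ (by decide +kernel) (by decide +kernel)
  intro x hx
  simp only [List.mem_append] at hx
  rcases hx with (h | h) | h
  · exact List.all_eq_true.1 L12a_ok x h
  · exact List.all_eq_true.1 L12b_ok x h
  · exact List.all_eq_true.1 L12c_ok x h

theorem good13 : Good 13 codes13 := by
  refine good_of (L13a ++ L13b) ?_ (by decide +kernel) (by decide +kernel)
  intro x hx
  simp only [List.mem_append] at hx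
  rcases hx with h | h
  · exact List.all_eq_true.1 L13a_ok x h
  · exact List.all_eq_true.1 L13b_ok x h

theorem good14 : Good 14 codes14 := by
  refine good_of (L14a) ?_ (by decide +kernel) (by decide +kernel)
  intro x hx
  exact List.all_eq_true.1 L14a_ok x hx

end Pool.Agent.TW4
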