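import Pool.Agent.TW4.Elim

/-! Soundness of the bramble certificates. -/

namespace Pool.Agent.TW4

theorem allBits_spec {P : ℕ → Bool} : ∀ (s M : ℕ), allBits P s M = true →
    ∀ v, M.testBit v = true → P v = true := by
  intro s
  induction s with
  | zero =>
    intro M h v hv
    rw [allBits] at h
    have h0 : M = 0 := by simpa using h
    rw [h0] at hv
    simp at hv
  | succ s ih =>
    intro M h v hv
    rw [allBits] at h
    cases hM : (M == 0) with
    | true =>
      have h0 : M = 0 := by simpa using hM
      rw [h0] at hv
      simp at hv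
    | false =>
      simp only [hM, cond_false, Bool.and_eq_true] at h
      by_cases hv' : v = M.log2
      · rw [hv']
        exact h.1
      · exact ih _ h.2 v ((tb_clear _ _ _).2 (Or.inl ⟨hv', hv⟩))

theorem noHit_spec (s : ℕ) : ∀ (k : ℕ) (Bs : List ℕ), noHit s k Bs = true →
    ∀ Y : Set ℕ, Y.encard ≤ k → ∃ b ∈ Bs, ∀ y ∈ Y, b.testBit y = false := by
  intro k
  induction k with
  | zero =>
    intro Bs h Y hY
    cases Bs with
    | nil =>
      rw [noHit] at h
      simp at h
    | cons b t =>
      have : Y = ∅ := by
        rw [← Set.encard_eq_zero]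
        exact le_antisymm hY zero_le
      exact ⟨b, by simp, by simp [this]⟩
  | succ k ih =>
    intro Bs h Y hY
    cases Bs with
    | nil =>
      rw [noHit] at h
      simp at h
    | cons b t =>
      by_cases hb : ∃ y ∈ Y, b.testBit y = true
      · obtain ⟨y, hy, hby⟩ := hb
        rw [noHit] at h
        have h1 := allBits_spec _ _ h y hby
        have hcard : (Y \ {y}).encard ≤ k := by
          have e1 := Set.encard_sdiff_singleton_add_one hy
          have e2 : (Y \ {y}).encard + 1 ≤ (k : ℕ∞) + 1 := by
            rw [e1]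
            exact_mod_cast hY
          exact (ENat.add_le_add_iff_right ENat.one_ne_top).1 e2
        obtain ⟨c, hc, hcY⟩ := ih _ h1 _ hcard
        rw [List.mem_filter] at hc
        refine ⟨c, List.mem_cons_of_mem _ hc.1, ?_⟩
        intro z hz
        by_cases hzy : z = y
        · rw [hzy]
          simpa using hc.2
        · exact hcY z ⟨hz, hzy⟩
      · refine ⟨b, by simp, ?_⟩
        intro y hy
        by_contra h'
        exact hb ⟨y, hy, by simpa using h'⟩

theorem nbr_spec (R : ℕ) : ∀ (s M a x : ℕ), (nbr R s M a).testBit x = true →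
    a.testBit x = true ∨ ∃ y, M.testBit y = true ∧ R.testBit (16 * y + x) = true := by
  intro s
  induction s with
  | zero =>
    intro M a x h
    rw [nbr] at h
    exact Or.inl h
  | succ s ih =>
    intro M a x h
    rw [nbr] at h
    cases hM : M.testBit M.log2 with
    | false =>
      simp only [hM, cond_false] at h
      exact Or.inl h
    | true =>
      simp only [hM, cond_true] at h
      rcases ih _ _ _ h with h' | ⟨y, hy, hR⟩
      · rw [Nat.testBit_or, Bool.or_eq_true, Nat.testBit_shiftRight] at h'
        rcases h' with h' | h'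
        · exact Or.inl h'
        · exact Or.inr ⟨_, hM, h'⟩
      · rcases (tb_clear _ _ _).1 hy with h' | h'
        · exact Or.inr ⟨y, h'.2, hR⟩
        · rw [h'.1, hM] at h'
          exact absurd h'.2 (by simp)

/-- every vertex of `b` satisfies a property that passes along the edges inside `b` -/
theorem conn_spec (R b : ℕ) (P : ℕ → Prop)
    (hP : ∀ x y, P x → b.testBit x = true → b.testBit y = true → R.testBit (16 * x + y) = true →
      P y) : ∀ (s T M : ℕ), conn R s T M = true → (∀ x, T.testBit x = true → b.testBit x = true) →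
      (∀ x, M.testBit x = true → b.testBit x = true) → (∀ x, T.testBit x = true → P x) →
      (∀ x, b.testBit x = true → M.testBit x = false → P x) → ∀ x, b.testBit x = true → P x := by
  intro s
  induction s with
  | zero =>
    intro T M h hT hM hPT hPM x hx
    rw [conn] at h
    have h0 : M = 0 := by simpa using h
    exact hPM x hx (by rw [h0]; simp)
  | succ s ih =>
    intro T M h hT hM hPT hPM x hx
    rw [conn] at h
    cases hM0 : (M == 0) with
    | true =>
      have h0 : M = 0 := by simpa using hM0
      exact hPM x hx (by rw [h0]; simp)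
    | false =>
      simp only [hM0, cond_false] at h
      cases hTl : T.testBit T.log2 with
      | false => simp [hTl] at h
      | true =>
        simp only [hTl, cond_true] at h
        have hN : ∀ y, ((R >>> (16 * T.log2)) &&& M).testBit y = true ↔
            R.testBit (16 * T.log2 + y) = true ∧ M.testBit y = true := by
          intro y
          rw [Nat.testBit_and, Nat.testBit_shiftRight, Bool.and_eq_true]
        have hPN : ∀ y, ((R >>> (16 * T.log2)) &&& M).testBit y = true → P y := by
          intro y hy
          have := (hN y).1 hy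
          exact hP _ _ (hPT _ hTl) (hT _ hTl) (hM _ this.2) this.1
        refine ih _ _ h ?_ ?_ ?_ ?_ x hx
        · intro y hy
          rw [Nat.testBit_or, Bool.or_eq_true] at hy
          rcases hy with hy | hy
          · rcases (tb_clear _ _ _).1 hy with h' | h'
            · exact hT _ h'.2
            · rw [h'.1, hTl] at h'
              exact absurd h'.2 (by simp)
          · exact hM _ ((hN y).1 hy).2
        · intro y hy
          by_contra hby
          have hMy : M.testBit y = false := by
            by_contra h'
            exact hby (hM _ (by simpa using h'))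
          rw [Nat.testBit_xor, Nat.testBit_and, hMy] at hy
          simp at hy
        · intro y hy
          rw [Nat.testBit_or, Bool.or_eq_true] at hy
          rcases hy with hy | hy
          · rcases (tb_clear _ _ _).1 hy with h' | h'
            · exact hPT _ h'.2
            · rw [h'.1, hTl] at h'
              exact absurd h'.2 (by simp)
          · exact hPN y hy
        · intro y hy hy'
          by_cases hyN : ((R >>> (16 * T.log2)) &&& M).testBit y = true
          · exact hPN y hyN
          · refine hPM y hy ?_
            rw [Nat.testBit_xor] at hy'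
            simpa [hyN] using hy'

theorem not_partial_of_bram {k n s R : ℕ} {Bs : List ℕ} {G : SimpleGraph (Fin n)}
    (hG : ∀ x y : Fin n, R.testBit (16 * x + y) = true → x ≠ y → G.Adj x y)
    (h : bramOk k n s R Bs = true) : ¬ IsPartialKTree k G := by
  intro hpart
  unfold bramOk at h
  rw [Bool.and_eq_true, Bool.and_eq_true, List.all_eq_true, List.all_eq_true] at h
  obtain ⟨⟨h1, h2⟩, h3⟩ := h
  have hlt : ∀ b ∈ Bs, ∀ x, b.testBit x = true → x < n := by
    intro b hb x hx
    have := h1 b hb
    rw [Bool.and_eq_true, Bool.and_eq_true] at this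
    have hb2 : b < 2 ^ n := by simpa using this.1.1
    by_contra hxn
    have : b < 2 ^ x := lt_of_lt_of_le hb2 (Nat.pow_le_pow_right (by norm_num) (not_lt.1 hxn))
    rw [Nat.testBit_lt_two_pow this] at hx
    exact absurd hx (by simp)
  have hne : ∃ b, b ∈ Bs := by
    cases Bs with
    | nil => rw [noHit] at h3; simp at h3
    | cons b t => exact ⟨b, by simp⟩
  suffices hex : ∃ X : Set (Fin n), X.encard ≤ k + 1 ∧
      ∀ S ∈ {S : Set (Fin n) | ∃ b ∈ Bs, S = {x : Fin n | b.testBit x = true}}, ∃ x ∈ X, x ∈ S by
    obtain ⟨X, hX, hXB⟩ := hex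
    obtain ⟨b, hb, hbX⟩ := noHit_spec _ _ _ h3 (Fin.val '' X) (by
      rw [Function.Injective.encard_image (Fin.val_injective (n := n))]
      exact_mod_cast hX)
    obtain ⟨x, hx, hxb⟩ := hXB _ ⟨b, hb, rfl⟩
    have := hbX x ⟨x, hx, rfl⟩
    rw [show b.testBit x = true from hxb] at this
    exact absurd this (by simp)
  refine bramble_hit hpart _ ?_ ?_ ?_
  · obtain ⟨b, hb⟩ := hne
    exact ⟨_, b, hb, rfl⟩
  · rintro S ⟨b, hb, rfl⟩
    have hb' := h1 b hb
    rw [Bool.and_eq_true, Bool.and_eq_true] at hb'
    have hroot := hb'.1.2
    have hrn : b.log2 < n := hlt b hb _ hroot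
    set r : Fin n := ⟨b.log2, hrn⟩ with hr
    have hrS : r ∈ {x : Fin n | b.testBit x = true} := hroot
    have key : ∀ x, b.testBit x = true → ∃ (hx : x < n) (hx' : b.testBit x = true),
        (G.induce {x : Fin n | b.testBit x = true}).Reachable ⟨r, hrS⟩ ⟨⟨x, hx⟩, hx'⟩ := by
      refine conn_spec R b _ ?_ _ _ _ hb'.2 ?_ ?_ ?_ ?_
      · rintro x y ⟨hx, hx', hreach⟩ - hby hR
        refine ⟨hlt b hb y hby, hby, ?_⟩
        by_cases hxy : x = y
        · subst hxy
          exact hreach
        · refine hreach.trans (SimpleGraph.Adj.reachable ?_)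
          have := hG ⟨x, hx⟩ ⟨y, hlt b hb y hby⟩ hR (fun h => hxy (Fin.ext_iff.1 h))
          simpa using this
      · intro x hx
        rw [Nat.testBit_two_pow] at hx
        have : b.log2 = x := by simpa using hx
        rw [← this]
        exact hroot
      · intro x hx
        rcases (tb_clear _ _ _).1 hx with h' | h'
        · exact h'.2
        · rw [h'.1]
          exact hroot
      · intro x hx
        rw [Nat.testBit_two_pow] at hx
        have : b.log2 = x := by simpa using hx
        subst this
        exact ⟨hrn, hroot, SimpleGraph.Reachable.refl _⟩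
      · intro x hx hx'
        by_cases hxr : x = b.log2
        · subst hxr
          exact ⟨hrn, hroot, SimpleGraph.Reachable.refl _⟩
        · exfalso
          rw [(tb_clear _ _ _).2 (Or.inl ⟨hxr, hx⟩)] at hx'
          exact absurd hx' (by simp)
    have : Nonempty {x : Fin n | b.testBit x = true} := ⟨⟨r, hrS⟩⟩
    refine SimpleGraph.Connected.mk ?_
    intro x y
    obtain ⟨_, _, h1'⟩ := key x.1 x.2
    obtain ⟨_, _, h2'⟩ := key y.1 y.2
    exact h1'.symm.trans h2'
  · rintro S ⟨b, hb, rfl⟩ S' ⟨c, hc, rfl⟩
    have h4 := h2 b hb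
    simp only [List.all_eq_true] at h4
    have h5 := h4 c hc
    have h6 : (nbr R s b b &&& c) ≠ 0 := by
      intro h0
      rw [h0] at h5
      simp at h5
    obtain ⟨x, hx⟩ := Nat.exists_testBit_of_ne_zero h6
    rw [Nat.testBit_and, Bool.and_eq_true] at hx
    have hxn := hlt c hc x hx.2
    rcases nbr_spec _ _ _ _ _ hx.1 with h' | ⟨y, hy, hR⟩
    · exact ⟨⟨x, hxn⟩, h', ⟨x, hxn⟩, hx.2, Or.inl rfl⟩
    · have hyn := hlt b hb y hy
      refine ⟨⟨y, hyn⟩, hy, ⟨x, hxn⟩, hx.2, ?_⟩
      by_cases hxy : y = x
      · left
        exact Fin.ext hxy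
      · right
        exact hG ⟨y, hyn⟩ ⟨x, hxn⟩ hR (fun h => hxy (Fin.ext_iff.1 h))

end Pool.Agent.TW4
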