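import Pool.Agent.TW4.Width

/-! From a perfect elimination scheme of width k to a k-tree. -/

namespace Pool.Agent.TW4

variable {V : Type*}

/-- join a new last vertex to the vertices of `S` -/
def addV {n : ℕ} (G : SimpleGraph (Fin n)) (S : Finset (Fin n)) : SimpleGraph (Fin (n + 1)) where
  Adj a b := (∃ i j, a = Fin.castSucc i ∧ b = Fin.castSucc j ∧ G.Adj i j) ∨
    (∃ i ∈ S, a = Fin.castSucc i ∧ b = Fin.last n) ∨ (∃ i ∈ S, b = Fin.castSucc i ∧ a = Fin.last n)
  symm := ⟨by
    rintro a b (⟨i, j, rfl, rfl, h⟩ | ⟨i, h, rfl, rfl⟩ | ⟨i, h, rfl, rfl⟩)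
    · exact Or.inl ⟨j, i, rfl, rfl, h.symm⟩
    · exact Or.inr (Or.inr ⟨i, h, rfl, rfl⟩)
    · exact Or.inr (Or.inl ⟨i, h, rfl, rfl⟩)⟩
  loopless := ⟨by
    rintro a (⟨i, j, h1, h2, h⟩ | ⟨i, h, h1, h2⟩ | ⟨i, h, h1, h2⟩)
    · have : i = j := Fin.castSucc_injective _ (h1.symm.trans h2)
      subst this
      exact G.loopless.irrefl _ h
    · exact (Fin.castSucc_lt_last i).ne (h1.symm.trans h2)
    · exact (Fin.castSucc_lt_last i).ne (h1.symm.trans h2)⟩

theorem addV_cc {n : ℕ} (G : SimpleGraph (Fin n)) (S : Finset (Fin n)) (i j : Fin n) :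
    (addV G S).Adj i.castSucc j.castSucc ↔ G.Adj i j := by
  constructor
  · rintro (⟨i', j', h1, h2, h⟩ | ⟨i', h, h1, h2⟩ | ⟨i', h, h1, h2⟩)
    · rw [Fin.castSucc_injective _ h1, Fin.castSucc_injective _ h2]
      exact h
    · exact absurd h2 (Fin.castSucc_lt_last j).ne
    · exact absurd h2 (Fin.castSucc_lt_last i).ne
  · intro h
    exact Or.inl ⟨i, j, rfl, rfl, h⟩

theorem addV_cl {n : ℕ} (G : SimpleGraph (Fin n)) (S : Finset (Fin n)) (i : Fin n) :
    (addV G S).Adj i.castSucc (Fin.last n) ↔ i ∈ S := by
  constructor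
  · rintro (⟨i', j', h1, h2, h⟩ | ⟨i', h, h1, h2⟩ | ⟨i', h, h1, h2⟩)
    · exact absurd h2.symm (Fin.castSucc_lt_last j').ne
    · rwa [Fin.castSucc_injective _ h1]
    · exact absurd h2 (Fin.castSucc_lt_last i).ne
  · intro h
    exact Or.inr (Or.inl ⟨i, h, rfl, rfl⟩)

theorem addV_ktree {k n : ℕ} {G : SimpleGraph (Fin n)} {S : Finset (Fin n)} (hG : IsKTree k n G)
    (hS : S.card = k) (hc : G.IsClique (S : Set (Fin n))) : IsKTree k (n + 1) (addV G S) :=
  IsKTree.add G _ S hG hS hc (addV_cc G S) (addV_cl G S)

/-- every small clique of a k-tree extends to a k-clique -/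
theorem ktree_ext {k n : ℕ} {T : SimpleGraph (Fin n)} (hT : IsKTree k n T) :
    ∀ C : Finset (Fin n), C.card ≤ k → T.IsClique (C : Set (Fin n)) →
      ∃ S : Finset (Fin n), C ⊆ S ∧ S.card = k ∧ T.IsClique (S : Set (Fin n)) := by
  induction hT with
  | complete =>
    intro C hC _
    obtain ⟨S, h1, h2⟩ := Finset.exists_superset_card_eq hC (by simp)
    exact ⟨S, h1, h2, fun a _ b _ h => h⟩
  | @add n G H S hG hS hc hH hl ih =>
    intro C hC hcl
    classical
    -- the part of C in the old graph
    set D : Finset (Fin n) := Finset.univ.filter (fun i => Fin.castSucc i ∈ C) with hD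
    have hDC : D.map Fin.castSuccEmb ⊆ C := by
      intro x hx
      simp only [Finset.mem_map, hD, Finset.mem_filter, Finset.mem_univ, true_and] at hx
      obtain ⟨i, hi, rfl⟩ := hx
      exact hi
    have hDcl : G.IsClique (D : Set (Fin n)) := by
      intro a ha b hb hab
      simp only [hD, Finset.coe_filter, Finset.mem_univ, true_and, Set.mem_ofPred_eq] at ha hb
      exact (hH a b).1 (hcl ha hb (fun h => hab (Fin.castSucc_injective _ h)))
    have hDcard : D.card ≤ C.card := by
      have := Finset.card_le_card hDC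
      rwa [Finset.card_map] at this
    by_cases hlast : Fin.last n ∈ C
    · have hDS : D ⊆ S := by
        intro i hi
        simp only [hD, Finset.mem_filter, Finset.mem_univ, true_and] at hi
        exact (hl i).1 (hcl hi hlast (Fin.castSucc_lt_last i).ne)
      have hDk : D.card + 1 ≤ k := by
        have h1 : (insert (Fin.last n) (D.map Fin.castSuccEmb)) ⊆ C :=
          Finset.insert_subset hlast hDC
        have h2 := Finset.card_le_card h1
        rw [Finset.card_insert_of_notMem, Finset.card_map] at h2
        · omega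
        · simp only [Finset.mem_map, not_exists, not_and]
          intro i _ h
          exact (Fin.castSucc_lt_last i).ne h
      obtain ⟨S', h1, h2, h3⟩ := Finset.exists_subsuperset_card_eq hDS (n := k - 1) (by omega)
        (by omega)
      refine ⟨insert (Fin.last n) (S'.map Fin.castSuccEmb), ?_, ?_, ?_⟩
      · intro x hx
        rcases Fin.eq_castSucc_or_eq_last x with ⟨i, rfl⟩ | rfl
        · refine Finset.mem_insert_of_mem (Finset.mem_map.2 ⟨i, h1 ?_, rfl⟩)
          simpa [hD] using hx
        · exact Finset.mem_insert_self _ _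
      · rw [Finset.card_insert_of_notMem, Finset.card_map, h3]
        · omega
        · simp only [Finset.mem_map, not_exists, not_and]
          intro i _ h
          exact (Fin.castSucc_lt_last i).ne h
      · intro a ha b hb hab
        simp only [Finset.coe_insert, Finset.coe_map, Set.mem_insert_iff, Set.mem_image,
          Finset.mem_coe] at ha hb
        rcases ha with rfl | ⟨i, hi, rfl⟩
        · rcases hb with rfl | ⟨j, hj, rfl⟩
          · exact absurd rfl hab
          · exact ((hl j).2 (h2 hj)).symm
        · rcases hb with rfl | ⟨j, hj, rfl⟩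
          · exact (hl i).2 (h2 hi)
          · refine (hH i j).2 (hc (h2 hi) (h2 hj) ?_)
            rintro rfl
            exact hab rfl
    · obtain ⟨S', h1, h2, h3⟩ := ih D (hDcard.trans hC) hDcl
      refine ⟨S'.map Fin.castSuccEmb, ?_, ?_, ?_⟩
      · intro x hx
        rcases Fin.eq_castSucc_or_eq_last x with ⟨i, rfl⟩ | rfl
        · refine Finset.mem_map.2 ⟨i, h1 ?_, rfl⟩
          simpa [hD] using hx
        · exact absurd hx hlast
      · rw [Finset.card_map, h2]
      · intro a ha b hb hab
        simp only [Finset.coe_map, Set.mem_image, Finset.mem_coe] at ha hb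
        obtain ⟨i, hi, rfl⟩ := ha
        obtain ⟨j, hj, rfl⟩ := hb
        refine (hH i j).2 (h3 hi hj ?_)
        rintro rfl
        exact hab rfl

/-- A perfect elimination scheme: `L v` are the later neighbours. -/
theorem partial_of_scheme [Finite V] {k : ℕ} (G : SimpleGraph V) (p : V → ℤ)
    (L : V → Set V) (hp : Function.Injective p) (h0 : ∀ v w, w ∈ L v → p v < p w)
    (h1 : ∀ v w, G.Adj v w → p v < p w → w ∈ L v)
    (h2 : ∀ v w w', w ∈ L v → w' ∈ L v → p w < p w' → w' ∈ L w)
    (h3 : ∀ v, (L v).encard ≤ k) : IsPartialKTree k G := by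
  classical
  have := Fintype.ofFinite V
  have main : ∀ A : Finset V, ∃ (n : ℕ) (T : SimpleGraph (Fin n)) (f : V → Fin n),
      IsKTree k n T ∧ Set.InjOn f A ∧ ∀ a ∈ A, ∀ b ∈ A, b ∈ L a → T.Adj (f a) (f b) := by
    intro A
    refine Finset.induction_on_min_value p A ?_ ?_
    · exact ⟨k + 1, ⊤, fun _ => 0, IsKTree.complete, by simp, by simp⟩
    · intro a s ha hmin ih
      obtain ⟨n, T, f, hT, hf, hadj⟩ := ih
      set C : Finset (Fin n) := (s.filter (fun w => w ∈ L a)).image f with hC
      have hCcard : C.card ≤ k := by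
        have e1 : C.card ≤ (s.filter (fun w => w ∈ L a)).card := Finset.card_image_le
        have e2 : (((s.filter (fun w => w ∈ L a)).card : ℕ) : ℕ∞) ≤ (L a).encard := by
          rw [← Set.encard_coe_eq_coe_finsetCard]
          apply Set.encard_le_encard
          intro x hx
          simp only [Finset.coe_filter, Set.mem_ofPred_eq] at hx
          exact hx.2
        have e3 := e2.trans (h3 a)
        have e4 : (s.filter (fun w => w ∈ L a)).card ≤ k := by exact_mod_cast e3
        omega
      have hCcl : T.IsClique (C : Set (Fin n)) := by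
        intro x hx y hy hxy
        simp only [hC, Finset.coe_image, Finset.coe_filter, Set.mem_image, Set.mem_ofPred_eq]
          at hx hy
        obtain ⟨w, ⟨hw, hw'⟩, rfl⟩ := hx
        obtain ⟨z, ⟨hz, hz'⟩, rfl⟩ := hy
        have hne : w ≠ z := by
          rintro rfl
          exact hxy rfl
        rcases lt_or_gt_of_ne (fun h => hne (hp h) : p w ≠ p z) with h | h
        · exact hadj w hw z hz (h2 a w z hw' hz' h)
        · exact (hadj z hz w hw (h2 a z w hz' hw' h)).symm
      obtain ⟨S, hCS, hS, hScl⟩ := ktree_ext hT C hCcard hCcl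
      refine ⟨n + 1, addV T S, fun x => if x = a then Fin.last n else (f x).castSucc,
        addV_ktree hT hS hScl, ?_, ?_⟩
      · intro x hx y hy hxy
        simp only [Finset.coe_insert, Set.mem_insert_iff, Finset.mem_coe] at hx hy
        by_cases hxa : x = a
        · by_cases hya : y = a
          · rw [hxa, hya]
          · simp only [hxa, hya, if_true, if_false] at hxy
            exact absurd hxy (Fin.castSucc_lt_last _).ne'
        · by_cases hya : y = a
          · simp only [hxa, hya, if_true, if_false] at hxy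
            exact absurd hxy (Fin.castSucc_lt_last _).ne
          · simp only [hxa, hya, if_false] at hxy
            exact hf (hx.resolve_left hxa) (hy.resolve_left hya) (Fin.castSucc_injective _ hxy)
      · intro x hx y hy hxy
        rw [Finset.mem_insert] at hx hy
        have hlt := h0 _ _ hxy
        by_cases hxa : x = a
        · have hya : y ≠ a := by
            rintro rfl
            rw [hxa] at hlt
            exact lt_irrefl _ hlt
          have hys : y ∈ s := hy.resolve_left hya
          simp only [hxa, hya, if_true, if_false]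
          refine ((addV_cl T S _).2 (hCS ?_)).symm
          rw [hC]
          exact Finset.mem_image.2 ⟨y, Finset.mem_filter.2 ⟨hys, hxa ▸ hxy⟩, rfl⟩
        · have hxs : x ∈ s := hx.resolve_left hxa
          have hya : y ≠ a := by
            rintro rfl
            exact absurd (hmin x hxs) (not_le.2 hlt)
          simp only [hxa, hya, if_false]
          exact (addV_cc T S _ _).2 (hadj x hxs y (hy.resolve_left hya) hxy)
  obtain ⟨n, T, f, hT, hf, hadj⟩ := main Finset.univ
  refine ⟨n, T, f, hT, fun a b h => hf (by simp) (by simp) h, ?_⟩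
  intro a b hab
  have hne : p a ≠ p b := fun h => hab.ne (hp h)
  rcases lt_or_gt_of_ne hne with h | h
  · exact hadj a (by simp) b (by simp) (h1 a b hab h)
  · exact (hadj b (by simp) a (by simp) (h1 b a hab.symm h)).symm

theorem partial_of_width [Finite V] {k : ℕ} {G : SimpleGraph V} {p : V → ℤ}
    (h : Width G p k) : IsPartialKTree k G := by
  refine partial_of_scheme G p (Qs G p) h.1 (fun v w hw => hw.1) ?_ ?_ h.2
  · intro v w hvw hlt
    exact ⟨hlt, v, Comp.refl, hvw⟩
  · rintro v w w' ⟨hw, x, hx, hxw⟩ ⟨hw', x', hx', hxw'⟩ hlt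
    refine ⟨hlt, x', ?_, hxw'⟩
    -- everything in Comp v is in Comp w
    have hmono : ∀ y, Comp G p v y → Comp G p w y → True := fun _ _ _ => trivial
    have hxw2 : Comp G p w x := Comp.step Comp.refl hxw.symm (lt_of_le_of_lt hx.le hw)
    -- from x back to v
    have back : ∀ y, Comp G p v y → Comp G p w y → Comp G p w v := by
      intro y hy
      induction hy with
      | refl => exact fun h => h
      | @step a b ha hab _ ih =>
        intro hb
        exact ih (Comp.step hb hab.symm (lt_of_le_of_lt ha.le hw))
    have hwv : Comp G p w v := back x hx hxw2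
    have fwd : ∀ y, Comp G p v y → Comp G p w y := by
      intro y hy
      induction hy with
      | refl => exact hwv
      | @step a b ha hab hlt' ih => exact Comp.step ih hab (hlt'.trans hw)
    exact fwd x' hx'

end Pool.Agent.TW4
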