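import Pool.Agent.TW4.Bram

/-! Soundness of the whole certificate. -/

namespace Pool.Agent.TW4

theorem chkEdges_spec {k s R A : ℕ} : ∀ (L : List (ℕ × ℕ)) (D : ℕ),
    chkEdges k s R A L D = true → ∀ e ∈ L, Sch k (delR R e.1 e.2) A ∧
      Sch k (conR R e.1 e.2) (A ^^^ 2 ^ e.1) := by
  intro L
  induction L with
  | nil => simp
  | cons a t ih =>
    intro D h e he
    rw [chkEdges, Bool.and_eq_true, Bool.and_eq_true] at h
    rcases List.mem_cons.1 he with rfl | he
    · exact ⟨elim_sch _ _ _ _ _ h.1.1, elim_sch _ _ _ _ _ h.1.2⟩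
    · exact ih _ h.2 e he

theorem mem_edges {n R u v : ℕ} (huv : u < v) (hv : v < n)
    (h : R.testBit (16 * u + v) = true) : (u, v) ∈ edges n R := by
  unfold edges
  rw [List.mem_filter, List.mem_flatMap]
  refine ⟨⟨v, List.mem_range.2 hv, List.mem_map.2 ⟨u, List.mem_range.2 huv, rfl⟩⟩, h⟩

theorem colMask_bit {x : ℕ} (hx : x < 16) : colMask.testBit (16 * x) = true := by
  have : ∀ x : Fin 16, colMask.testBit (16 * x) = true := by decide +kernel
  exact this ⟨x, hx⟩

theorem mask_bit {x : ℕ} (hx : x < 16) : Nat.testBit 65535 x = true := by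
  have : ∀ x : Fin 16, Nat.testBit 65535 (x : ℕ) = true := by decide +kernel
  exact this ⟨x, hx⟩

theorem conR_mono {R u v i : ℕ} (h : R.testBit i = true) : (conR R u v).testBit i = true := by
  unfold conR
  rw [Nat.testBit_or, Nat.testBit_or, h, Bool.true_or, Bool.true_or]

theorem conR_row {R u v y : ℕ} (hy : y < 16) (h : R.testBit (16 * u + y) = true) :
    (conR R u v).testBit (16 * v + y) = true := by
  unfold conR
  have : (((R >>> (16 * u)) &&& 65535) <<< (16 * v)).testBit (16 * v + y) = true := by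
    rw [Nat.testBit_shiftLeft, Nat.add_sub_cancel_left, Nat.testBit_and, Nat.testBit_shiftRight, h,
      mask_bit hy]
    simp
  rw [Nat.testBit_or, Nat.testBit_or, this, Bool.or_true, Bool.true_or]

theorem conR_col {R u v x : ℕ} (hx : x < 16) (h : R.testBit (16 * x + u) = true) :
    (conR R u v).testBit (16 * x + v) = true := by
  unfold conR
  have : (((R &&& (colMask <<< u)) <<< v) >>> u).testBit (16 * x + v) = true := by
    rw [Nat.testBit_shiftRight, Nat.testBit_shiftLeft]
    have e : u + (16 * x + v) - v = 16 * x + u := by omega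
    rw [e, Nat.testBit_and, h, Nat.testBit_shiftLeft, Nat.add_sub_cancel, colMask_bit hx]
    simp
    omega
  rw [Nat.testBit_or, this, Bool.or_true]

theorem rows_spec {n c R : ℕ} (h2 : rowsOk n c R = true) (x y : Fin n) :
    (gr n c).Adj x y ↔ R.testBit (16 * x + y) = true := by
  unfold rowsOk at h2
  rw [List.all_eq_true] at h2
  have hrow : ∀ i j : ℕ, i < j → j < n → (R.testBit (16 * i + j) = c.testBit (place i j)) ∧
      (R.testBit (16 * j + i) = c.testBit (place i j)) := by
    intro i j hij hj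
    have := h2 j (List.mem_range.2 hj)
    rw [Bool.and_eq_true, List.all_eq_true] at this
    have := this.2 i (List.mem_range.2 hij)
    simpa using this
  have hdiag : ∀ j : ℕ, j < n → R.testBit (16 * j + j) = false := by
    intro j hj
    have := h2 j (List.mem_range.2 hj)
    rw [Bool.and_eq_true] at this
    simpa using this.1
  have hA : (gr n c).Adj x y ↔ (x < y ∧ c.testBit (place x y) = true) ∨
      (y < x ∧ c.testBit (place y x) = true) := Iff.rfl
  rw [hA]
  rcases lt_trichotomy x y with h | h | h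
  · have := hrow x y h y.2
    rw [this.1]
    constructor
    · rintro (h' | h')
      · exact h'.2
      · exact absurd h (lt_asymm h'.1)
    · exact fun h' => Or.inl ⟨h, h'⟩
  · subst h
    rw [hdiag x x.2]
    simp
  · have := hrow y x h x.2
    rw [this.2]
    constructor
    · rintro (h' | h')
      · exact absurd h (lt_asymm h'.1)
      · exact h'.2
    · exact fun h' => Or.inr ⟨h, h'⟩

theorem cert_spec {k n c R D : ℕ} {Bs : List ℕ} (h : certOk k n c R D Bs = true) :
    IsObstruction k (gr n c) := by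
  unfold certOk at h
  rw [Bool.and_eq_true, Bool.and_eq_true, Bool.and_eq_true, Bool.and_eq_true] at h
  obtain ⟨⟨⟨⟨h1, h2⟩, h3⟩, h4⟩, h5⟩ := h
  have hn : n ≤ 16 := Nat.le_of_ble_eq_true h1
  have hadj' := rows_spec h2
  have hadj : ∀ x y : Fin n, (gr n c).Adj x y ↔ x ≠ y ∧ R.testBit (16 * x + y) = true := by
    intro x y
    rw [hadj' x y]
    exact ⟨fun h => ⟨((hadj' x y).2 h).ne, h⟩, fun h => h.2⟩
  have hall : ∀ x : Fin n, (2 ^ n - 1).testBit x = true := by
    intro x
    rw [Nat.testBit_two_pow_sub_one]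
    simp
  have hspec := chkEdges_spec _ _ h5
  have hdel : ∀ u v : Fin n, u < v → (gr n c).Adj u v → IsPartialKTree k (del (gr n c) u v) := by
    intro u v huv hA
    have hR := ((hadj u v).1 hA).2
    have he := (hspec _ (mem_edges (R := R) (n := n) (show (u : ℕ) < v from huv) v.2 hR)).1
    refine partial_of_sch he ?_
    rintro x y ⟨hxy, hne1, hne2⟩
    refine ⟨hall x, hall y, ?_⟩
    have hR' := ((hadj x y).1 hxy).2
    have hx := x.2
    have hy := y.2
    have hu := u.2
    have hv := v.2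
    have hne1' : ¬ ((x : ℕ) = u ∧ (y : ℕ) = v) := fun h => hne1 ⟨Fin.ext h.1, Fin.ext h.2⟩
    have hne2' : ¬ ((x : ℕ) = v ∧ (y : ℕ) = u) := fun h => hne2 ⟨Fin.ext h.1, Fin.ext h.2⟩
    unfold delR
    refine (tb_clear _ _ _).2 (Or.inl ⟨?_, (tb_clear _ _ _).2 (Or.inl ⟨?_, hR'⟩)⟩)
    · show (16 * (x : ℕ) + y) ≠ 16 * v + u
      omega
    · show (16 * (x : ℕ) + y) ≠ 16 * u + v
      omega
  have hcon : ∀ u v : Fin n, u < v → (gr n c).Adj u v → IsPartialKTree k (con (gr n c) u v) := by
    intro u v huv hA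
    have hR := ((hadj u v).1 hA).2
    have he := (hspec _ (mem_edges (R := R) (n := n) (show (u : ℕ) < v from huv) v.2 hR)).2
    refine partial_of_sch he ?_
    rintro x y ⟨hxy, hxu, hyu, hcase⟩
    have hx := x.2
    have hy := y.2
    refine ⟨(tb_clear _ _ _).2 (Or.inl ⟨fun h => hxu (Fin.ext h), hall x⟩),
      (tb_clear _ _ _).2 (Or.inl ⟨fun h => hyu (Fin.ext h), hall y⟩), ?_⟩
    rcases hcase with h | ⟨rfl, h⟩ | ⟨rfl, h⟩
    · exact conR_mono ((hadj x y).1 h).2
    · exact conR_row (by omega) ((hadj u y).1 h).2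
    · exact conR_col (by omega) ((hadj x u).1 h).2
  refine obstruction_of ?_ ?_ ?_ ?_
  · intro v
    rw [List.all_eq_true] at h4
    have h6 := h4 v (List.mem_range.2 v.2)
    have h7 : ((R >>> (16 * (v : ℕ))) &&& ((2 ^ n - 1) ^^^ 2 ^ (v : ℕ))) ≠ 0 := by
      intro h0
      rw [h0] at h6
      simp at h6
    obtain ⟨w, hw⟩ := Nat.exists_testBit_of_ne_zero h7
    rw [Nat.testBit_and, Bool.and_eq_true, Nat.testBit_shiftRight] at hw
    rcases (tb_clear _ _ _).1 hw.2 with h' | h'
    · have hwn : w < n := by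
        have := h'.2
        rw [Nat.testBit_two_pow_sub_one] at this
        simpa using this
      exact ⟨⟨w, hwn⟩, (hadj v ⟨w, hwn⟩).2 ⟨fun h => h'.1 (Fin.ext_iff.1 h).symm, hw.1⟩⟩
    · rw [h'.1, hall v] at h'
      exact absurd h'.2 (by simp)
  · exact not_partial_of_bram (fun x y h hne => (hadj x y).2 ⟨hne, h⟩) h3
  · intro u v hA
    rcases lt_or_gt_of_ne hA.ne with h | h
    · exact Or.inl (hdel u v h hA)
    · exact Or.inr (hdel v u h hA.symm)
  · intro u v hA
    rcases lt_or_gt_of_ne hA.ne with h | h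
    · exact Or.inl (hcon u v h hA)
    · exact Or.inr (hcon v u h hA.symm)

end Pool.Agent.TW4
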