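import Mathlib

/-!
Partial k-trees, minors and minor-minimal graphs that are not partial k-trees
(problem MP_59b5d9_co).
-/

namespace Pool.Agent.TW4

/-- The k-trees on the vertex sets `Fin n`: the complete graph on k+1 vertices is a k-tree, and
joining a new vertex (the last one) to the vertices of a k-clique of a k-tree gives a k-tree. -/
inductive IsKTree (k : ℕ) : (n : ℕ) → SimpleGraph (Fin n) → Prop
  | complete : IsKTree k (k + 1) ⊤
  | add {n : ℕ} (G : SimpleGraph (Fin n)) (H : SimpleGraph (Fin (n + 1))) (S : Finset (Fin n)) :
      IsKTree k n G → S.card = k → G.IsClique (S : Set (Fin n)) →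
      (∀ i j : Fin n, H.Adj i.castSucc j.castSucc ↔ G.Adj i j) →
      (∀ i : Fin n, H.Adj i.castSucc (Fin.last n) ↔ i ∈ S) → IsKTree k (n + 1) H

/-- A partial k-tree is a (not necessarily induced or spanning) subgraph of a k-tree. -/
def IsPartialKTree (k : ℕ) {V : Type*} (G : SimpleGraph V) : Prop :=
  ∃ (n : ℕ) (T : SimpleGraph (Fin n)) (f : V → Fin n), IsKTree k n T ∧
    Function.Injective f ∧ ∀ a b, G.Adj a b → T.Adj (f a) (f b)

/-- `H` is a minor of `G`: there are disjoint connected branch sets in `G`, one for each vertex of
`H` (`f v = some w` says that `v` lies in the branch set of `w`), such that the branch sets of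
adjacent vertices of `H` are joined by an edge of `G`. -/
def IsMinor {V W : Type*} (H : SimpleGraph W) (G : SimpleGraph V) : Prop :=
  ∃ f : V → Option W, (∀ w, (G.induce {v | f v = some w}).Connected) ∧
    ∀ w w', H.Adj w w' → ∃ v v', f v = some w ∧ f v' = some w' ∧ G.Adj v v'

/-- `G` belongs to the set O_k: it is not a partial k-tree, but every proper minor of it (every
finite minor that is not isomorphic to `G`) is a partial k-tree. -/
def IsObstruction (k : ℕ) {V : Type*} (G : SimpleGraph V) : Prop :=
  ¬ IsPartialKTree k G ∧ ∀ (m : ℕ) (H : SimpleGraph (Fin m)),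
    IsMinor H G → IsEmpty (H ≃g G) → IsPartialKTree k H

end Pool.Agent.TW4
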