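import Pool.Agent.TW4.Minor

/-! Proper minors are minors of a one-edge deletion or of a one-edge contraction. -/

namespace Pool.Agent.TW4

variable {V W : Type*}

/-- delete the edge uv -/
def del (G : SimpleGraph V) (u v : V) : SimpleGraph V where
  Adj x y := G.Adj x y ∧ ¬ (x = u ∧ y = v) ∧ ¬ (x = v ∧ y = u)
  symm := ⟨by
    rintro x y ⟨h1, h2, h3⟩
    exact ⟨h1.symm, fun h => h3 ⟨h.2, h.1⟩, fun h => h2 ⟨h.2, h.1⟩⟩⟩
  loopless := ⟨fun x h => G.loopless.irrefl x h.1⟩

/-- contract the edge uv: `v` is the new vertex, `u` becomes isolated -/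
def con (G : SimpleGraph V) (u v : V) : SimpleGraph V where
  Adj x y := x ≠ y ∧ x ≠ u ∧ y ≠ u ∧ (G.Adj x y ∨ (x = v ∧ G.Adj u y) ∨ (y = v ∧ G.Adj x u))
  symm := ⟨by
    rintro x y ⟨h1, h2, h3, h4⟩
    refine ⟨h1.symm, h3, h2, ?_⟩
    rcases h4 with h | ⟨h, h'⟩ | ⟨h, h'⟩
    · exact Or.inl h.symm
    · exact Or.inr (Or.inr ⟨h, h'.symm⟩)
    · exact Or.inr (Or.inl ⟨h, h'.symm⟩)⟩
  loopless := ⟨fun x h => h.1 rfl⟩

theorem reach_induce {G : SimpleGraph V} {A : Set V} {G' : SimpleGraph V} {B : Set V}
    (hA : (G.induce A).Connected) (r : V → V) (hr : ∀ x ∈ A, r x ∈ B)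
    (hs : ∀ x ∈ A, ∀ y ∈ A, G.Adj x y → r x = r y ∨ G'.Adj (r x) (r y))
    (hsurj : ∀ y ∈ B, ∃ x ∈ A, r x = y) : (G'.induce B).Connected := by
  have hpre : ∀ (x y : A), (G.induce A).Walk x y →
      (G'.induce B).Reachable ⟨r x.1, hr _ x.2⟩ ⟨r y.1, hr _ y.2⟩ := by
    intro x y w
    induction w with
    | nil => exact SimpleGraph.Reachable.refl _
    | @cons a b c hab _ ih =>
      refine SimpleGraph.Reachable.trans ?_ ih
      rcases hs a.1 a.2 b.1 b.2 hab with h | h
      · have : (⟨r a.1, hr _ a.2⟩ : B) = ⟨r b.1, hr _ b.2⟩ := Subtype.ext h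
        rw [this]
      · exact SimpleGraph.Adj.reachable (by simpa using h)
  obtain ⟨x0⟩ := hA.nonempty
  have : Nonempty B := ⟨⟨r x0.1, hr _ x0.2⟩⟩
  refine SimpleGraph.Connected.mk ?_
  rintro ⟨y, hy⟩ ⟨z, hz⟩
  obtain ⟨a, ha, rfl⟩ := hsurj y hy
  obtain ⟨b, hb, rfl⟩ := hsurj z hz
  obtain ⟨w⟩ := hA.preconnected ⟨a, ha⟩ ⟨b, hb⟩
  exact hpre _ _ w

theorem proper_minor_cases {G : SimpleGraph V} {H : SimpleGraph W}
    (hiso : ∀ v, ∃ w, G.Adj v w) (hm : IsMinor H G) (hne : IsEmpty (H ≃g G)) :
    (∃ u v, G.Adj u v ∧ IsMinor H (del G u v)) ∨ (∃ u v, G.Adj u v ∧ IsMinor H (con G u v)) := by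
  classical
  obtain ⟨f, hf, hadj⟩ := hm
  by_cases h1 : ∃ v, f v = none
  · -- an unused vertex: delete an edge at it
    left
    obtain ⟨v, hv⟩ := h1
    obtain ⟨w, hvw⟩ := hiso v
    refine ⟨v, w, hvw, f, ?_, ?_⟩
    · intro x
      refine reach_induce (hf x) id (fun y hy => hy) ?_ (fun y hy => ⟨y, hy, rfl⟩)
      intro a ha b hb hab
      right
      refine ⟨hab, ?_, ?_⟩
      · rintro ⟨h, -⟩
        have ha' : f a = some x := ha
        have h' : a = v := h
        rw [h', hv] at ha'
        exact absurd ha' (by simp)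
      · rintro ⟨-, h⟩
        have hb' : f b = some x := hb
        have h' : b = v := h
        rw [h', hv] at hb'
        exact absurd hb' (by simp)
    · intro x y hxy
      obtain ⟨a, b, ha, hb, hab⟩ := hadj x y hxy
      refine ⟨a, b, ha, hb, hab, ?_, ?_⟩
      · rintro ⟨rfl, -⟩
        rw [hv] at ha
        exact absurd ha (by simp)
      · rintro ⟨-, rfl⟩
        rw [hv] at hb
        exact absurd hb (by simp)
  push Not at h1
  by_cases h2 : ∃ u v, G.Adj u v ∧ f u = f v
  · -- contract an edge inside a branch set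
    right
    obtain ⟨u, v, huv, hfuv⟩ := h2
    refine ⟨u, v, huv, fun x => if x = u then none else f x, ?_, ?_⟩
    · intro x
      have hvu : v ≠ u := huv.ne'
      refine reach_induce (hf x) (fun y => if y = u then v else y) ?_ ?_ ?_
      · intro y hy
        rw [Set.mem_ofPred_eq] at hy ⊢
        by_cases hyu : y = u
        · subst hyu
          simp only [if_true, hvu, if_false]
          rw [← hfuv]
          exact hy
        · simp only [hyu, if_false]
          exact hy
      · intro a _ b _ hab
        by_cases hau : a = u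
        · by_cases hbu : b = u
          · exact absurd (hau.trans hbu.symm) hab.ne
          · simp only [hau, hbu, if_true, if_false]
            by_cases hbv : b = v
            · exact Or.inl hbv.symm
            · right
              refine ⟨fun h => hbv h.symm, hvu, hbu, Or.inr (Or.inl ⟨rfl, hau ▸ hab⟩)⟩
        · by_cases hbu : b = u
          · simp only [hau, hbu, if_true, if_false]
            by_cases hav : a = v
            · exact Or.inl hav
            · right
              exact ⟨hav, hau, hvu, Or.inr (Or.inr ⟨rfl, hbu ▸ hab⟩)⟩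
          · simp only [hau, hbu, if_false]
            right
            exact ⟨hab.ne, hau, hbu, Or.inl hab⟩
      · intro y hy
        rw [Set.mem_ofPred_eq] at hy
        have hyu : y ≠ u := by
          rintro rfl
          simp at hy
        simp only [hyu, if_false] at hy
        exact ⟨y, hy, by simp [hyu]⟩
    · intro x y hxy
      obtain ⟨a, b, ha, hb, hab⟩ := hadj x y hxy
      have hvu : v ≠ u := huv.ne'
      have hxy' : x ≠ y := hxy.ne
      by_cases hau : a = u
      · have hbu : b ≠ u := fun h => hab.ne (hau.trans h.symm)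
        have hbv : v ≠ b := by
          rintro rfl
          rw [hau, hfuv, hb] at ha
          exact hxy' (Option.some.inj ha).symm
        refine ⟨v, b, ?_, ?_, hbv, hvu, hbu, Or.inr (Or.inl ⟨rfl, hau ▸ hab⟩)⟩
        · simp only [hvu, if_false]
          rw [← hfuv, ← hau]
          exact ha
        · simp only [hbu, if_false]
          exact hb
      · by_cases hbu : b = u
        · have hav : a ≠ v := by
            rintro rfl
            rw [hbu, hfuv, ha] at hb
            exact hxy' (Option.some.inj hb)
          refine ⟨a, v, ?_, ?_, hav, hau, hvu, Or.inr (Or.inr ⟨rfl, hbu ▸ hab⟩)⟩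
          · simp only [hau, if_false]
            exact ha
          · simp only [hvu, if_false]
            rw [← hfuv, ← hbu]
            exact hb
        · refine ⟨a, b, ?_, ?_, hab.ne, hau, hbu, Or.inl hab⟩
          · simp only [hau, if_false]
            exact ha
          · simp only [hbu, if_false]
            exact hb
  -- all branch sets are single vertices
  left
  push Not at h2
  have hinj : Function.Injective f := by
    intro a b hab
    by_contra hne'
    obtain ⟨w, hw⟩ := Option.ne_none_iff_exists'.1 (h1 a)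
    have hb : f b = some w := hab ▸ hw
    -- a walk inside the branch set starts with an edge
    have : b = a := by
      refine walk_induct (hf w) (a := a) (b := b) hw hb (fun x => x = a) rfl ?_
      intro x y hx hy _ hxy
      exact absurd (hx.trans hy.symm) (h2 x y hxy)
    exact hne' this.symm
  have hsurj : ∀ w, ∃ v, f v = some w := by
    intro w
    obtain ⟨⟨x, hx⟩⟩ := (hf w).nonempty
    exact ⟨x, hx⟩
  choose g hg using hsurj
  -- g : W → V is a bijection
  have hgf : ∀ v, ∀ w, f v = some w → g w = v := fun v w h => hinj ((hg w).trans h.symm)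
  have hHG : ∀ x y, H.Adj x y → G.Adj (g x) (g y) := by
    intro x y hxy
    obtain ⟨a, b, ha, hb, hab⟩ := hadj x y hxy
    rw [hgf a x ha, hgf b y hb]
    exact hab
  have hgsurj : ∀ v, ∃ w, g w = v := by
    intro v
    obtain ⟨w, hw⟩ := Option.ne_none_iff_exists'.1 (h1 v)
    exact ⟨w, hgf v w hw⟩
  have hginj : Function.Injective g := by
    intro x y h
    have := hg x
    rw [h, hg y] at this
    exact (Option.some.inj this).symm
  by_cases h3 : ∃ x y, G.Adj (g x) (g y) ∧ ¬ H.Adj x y
  · obtain ⟨x, y, hxy, hnxy⟩ := h3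
    refine ⟨g x, g y, hxy, f, ?_, ?_⟩
    · intro w
      refine reach_induce (hf w) id (fun y hy => hy) ?_ (fun y hy => ⟨y, hy, rfl⟩)
      intro a ha b hb _
      left
      exact hinj (Eq.trans ha (Eq.symm hb))
    · intro a b hab
      refine ⟨g a, g b, hg a, hg b, hHG a b hab, ?_, ?_⟩
      · rintro ⟨ha, hb⟩
        rw [hginj ha, hginj hb] at hab
        exact hnxy hab
      · rintro ⟨ha, hb⟩
        rw [hginj ha, hginj hb] at hab
        exact hnxy hab.symm
  · exfalso
    push Not at h3
    refine hne.false ⟨Equiv.ofBijective g ⟨hginj, hgsurj⟩, ?_⟩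
    intro a b
    exact ⟨fun h => h3 a b h, fun h => hHG a b h⟩

theorem isMinor_con_swap {G : SimpleGraph V} {H : SimpleGraph W} {u v : V} (huv : G.Adj u v)
    (h : IsMinor H (con G u v)) : IsMinor H (con G v u) := by
  classical
  obtain ⟨f, hf, hadj⟩ := h
  have hne : u ≠ v := huv.ne
  set r : V → V := fun x => if x = v then u else if x = u then v else x with hr
  have hrr : ∀ x, r (r x) = x := by
    intro x
    simp only [hr]
    by_cases h1 : x = v
    · simp [h1, hne]
    · by_cases h2 : x = u
      · simp [h2, hne]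
      · simp [h1, h2]
  have hmap : ∀ x y, (con G u v).Adj x y → (con G v u).Adj (r x) (r y) := by
    rintro x y ⟨h1, h2, h3, h4⟩
    refine ⟨fun h => h1 ?_, ?_, ?_, ?_⟩
    · rw [← hrr x, h, hrr]
    · simp only [hr]
      by_cases hx : x = v
      · simp [hx, hne]
      · simp [hx, h2]
    · simp only [hr]
      by_cases hy : y = v
      · simp [hy, hne]
      · simp [hy, h3]
    · simp only [hr, h2, h3, if_false]
      rcases h4 with h | ⟨h, h'⟩ | ⟨h, h'⟩
      · by_cases hx : x = v
        · have hy : y ≠ v := fun h'' => h1 (hx.trans h''.symm)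
          simp only [hx, hy, if_true, if_false]
          exact Or.inr (Or.inl ⟨trivial, hx ▸ h⟩)
        · by_cases hy : y = v
          · simp only [hx, hy, if_true, if_false]
            exact Or.inr (Or.inr ⟨trivial, hy ▸ h⟩)
          · simp only [hx, hy, if_false]
            exact Or.inl h
      · have hy : y ≠ v := fun h'' => h1 (h.trans h''.symm)
        simp only [h, hy, if_true, if_false]
        exact Or.inl h'
      · have hx : x ≠ v := fun h'' => h1 (h''.trans h.symm)
        simp only [h, hx, if_true, if_false]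
        exact Or.inl h'
  refine ⟨fun x => f (r x), ?_, ?_⟩
  · intro w
    refine reach_induce (hf w) r ?_ ?_ ?_
    · intro x hx
      have hx' : f x = some w := hx
      change f (r (r x)) = some w
      rw [hrr]
      exact hx'
    · intro x _ y _ hxy
      exact Or.inr (hmap x y hxy)
    · intro y hy
      exact ⟨r y, hy, hrr y⟩
  · intro x y hxy
    obtain ⟨a, b, ha, hb, hab⟩ := hadj x y hxy
    refine ⟨r a, r b, ?_, ?_, hmap a b hab⟩
    · change f (r (r a)) = some x
      rw [hrr]
      exact ha
    · change f (r (r b)) = some y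
      rw [hrr]
      exact hb

/-- The criterion used for the certificates. -/
theorem obstruction_of [Finite V] {k : ℕ} {G : SimpleGraph V} (hiso : ∀ v, ∃ w, G.Adj v w)
    (hnot : ¬ IsPartialKTree k G)
    (hdel : ∀ u v, G.Adj u v → IsPartialKTree k (del G u v) ∨ IsPartialKTree k (del G v u))
    (hcon : ∀ u v, G.Adj u v → IsPartialKTree k (con G u v) ∨ IsPartialKTree k (con G v u)) :
    IsObstruction k G := by
  refine ⟨hnot, ?_⟩
  intro m H hm hne
  have hdd : ∀ u v, del G u v = del G v u := by
    intro u v
    ext x y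
    exact ⟨fun h => ⟨h.1, h.2.2, h.2.1⟩, fun h => ⟨h.1, h.2.2, h.2.1⟩⟩
  rcases proper_minor_cases hiso hm hne with ⟨u, v, huv, h⟩ | ⟨u, v, huv, h⟩
  · rcases hdel u v huv with h' | h'
    · exact partial_minor h' h
    · rw [hdd v u] at h'
      exact partial_minor h' h
  · rcases hcon u v huv with h' | h'
    · exact partial_minor h' h
    · exact partial_minor h' (isMinor_con_swap huv h)

end Pool.Agent.TW4
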