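import Pool.Agent.TW4.Code
import Pool.Agent.TW4.Step

/-! Soundness of the elimination certificates. -/

namespace Pool.Agent.TW4

theorem tb_clear (M h w : ℕ) : (M ^^^ 2 ^ h).testBit w = true ↔
    (w ≠ h ∧ M.testBit w = true) ∨ (w = h ∧ M.testBit w = false) := by
  rw [Nat.testBit_xor, Nat.testBit_two_pow]
  by_cases hw : h = w
  · subst hw
    simp
  · simp [hw, Ne.symm hw]

theorem upd_spec : ∀ (f M N R R' : ℕ), upd f M N R = some R' →
    (∀ i, R.testBit i = true → R'.testBit i = true) ∧
    (∀ w, M.testBit w = true → ∀ w', N.testBit w' = true → R'.testBit (16 * w + w') = true) ∧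
    ({w : ℕ | M.testBit w = true}.encard ≤ f) := by
  intro f
  induction f with
  | zero =>
    intro M N R R' h
    rw [upd] at h
    cases hM : (M == 0) with
    | false => simp [hM] at h
    | true =>
      have h0 : M = 0 := by simpa using hM
      simp only [hM, cond_true, Option.some.injEq] at h
      subst h
      subst h0
      simp
  | succ f ih =>
    intro M N R R' h
    rw [upd] at h
    cases hM : (M == 0) with
    | true =>
      have h0 : M = 0 := by simpa using hM
      simp only [hM, cond_true, Option.some.injEq] at h
      subst h
      subst h0
      simp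
    | false =>
      simp only [hM, cond_false] at h
      obtain ⟨h1, h2, h3⟩ := ih _ _ _ _ h
      refine ⟨?_, ?_, ?_⟩
      · intro i hi
        apply h1
        rw [Nat.testBit_or, hi, Bool.true_or]
      · intro w hw w' hw'
        by_cases hwh : w = M.log2
        · apply h1
          rw [Nat.testBit_or, Nat.testBit_shiftLeft, hwh]
          simp [hw']
        · exact h2 w ((tb_clear _ _ _).2 (Or.inl ⟨hwh, hw⟩)) w' hw'
      · have hsub : {w : ℕ | M.testBit w = true} ⊆
            insert M.log2 {w : ℕ | (M ^^^ 2 ^ M.log2).testBit w = true} := by
          intro w hw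
          by_cases hwh : w = M.log2
          · exact Set.mem_insert_iff.2 (Or.inl hwh)
          · exact Set.mem_insert_iff.2 (Or.inr ((tb_clear _ _ _).2 (Or.inl ⟨hwh, hw⟩)))
        refine (Set.encard_le_encard hsub).trans ((Set.encard_insert_le _ _).trans ?_)
        rw [Nat.cast_succ]
        exact add_le_add h3 le_rfl

/-- the property certified by `elim` -/
def Sch (k R A : ℕ) : Prop := ∃ (p : ℕ → ℕ) (L : ℕ → Set ℕ),
  (∀ v w, A.testBit v = true → A.testBit w = true → p v = p w → v = w) ∧
  (∀ v, A.testBit v = true → ∀ w ∈ L v, A.testBit w = true ∧ p v < p w) ∧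
  (∀ v w, A.testBit v = true → A.testBit w = true → v ≠ w → R.testBit (16 * v + w) = true →
    p v < p w → w ∈ L v) ∧
  (∀ v, A.testBit v = true → ∀ w ∈ L v, ∀ w' ∈ L v, p w < p w' → w' ∈ L w) ∧
  (∀ v, A.testBit v = true → (L v).encard ≤ k)

theorem sch_zero (k R : ℕ) : Sch k R 0 :=
  ⟨fun _ => 0, fun _ => ∅, by simp, by simp, by simp, by simp, by simp⟩

theorem elim_sch (k : ℕ) : ∀ (s R A o : ℕ), elim k s R A o = true → Sch k R A := by
  intro s
  induction s with
  | zero =>
    intro R A o h
    rw [elim] at h
    have h0 : A = 0 := by simpa using h
    rw [h0]
    exact sch_zero k R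
  | succ s ih =>
    intro R A o h
    rw [elim] at h
    cases hA : (A == 0) with
    | true =>
      have h0 : A = 0 := by simpa using hA
      rw [h0]
      exact sch_zero k R
    | false =>
      simp only [hA, cond_false] at h
      set v := o % 16 with hv
      cases hvA : A.testBit v with
      | false => simp [hvA] at h
      | true =>
        simp only [hvA, cond_true] at h
        set A' := A ^^^ 2 ^ v with hA'
        set N := (R >>> (16 * v)) &&& A' with hN
        have hAA : ∀ w, A'.testBit w = true ↔ w ≠ v ∧ A.testBit w = true := by
          intro w
          rw [hA', tb_clear]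
          constructor
          · rintro (h | ⟨rfl, h⟩)
            · exact h
            · rw [hvA] at h
              exact absurd h (by simp)
          · exact fun h => Or.inl h
        have hNN : ∀ w, N.testBit w = true ↔ R.testBit (16 * v + w) = true ∧
            w ≠ v ∧ A.testBit w = true := by
          intro w
          rw [hN, Nat.testBit_and, Nat.testBit_shiftRight, Bool.and_eq_true, hAA]
        cases hu : upd k N N R with
        | none => simp [hu] at h
        | some R' =>
          simp only [hu] at h
          obtain ⟨u1, u2, u3⟩ := upd_spec _ _ _ _ _ hu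
          obtain ⟨p, L, c1, c2, c3, c4, c5⟩ := ih _ _ _ h
          refine ⟨fun w => if w = v then 0 else p w + 1, fun w => if w = v then
            {x | N.testBit x = true} else L w, ?_, ?_, ?_, ?_, ?_⟩
          · intro x y hx hy hxy
            by_cases h1 : x = v
            · by_cases h2 : y = v
              · rw [h1, h2]
              · simp only [h1, h2, if_true, if_false] at hxy
                omega
            · by_cases h2 : y = v
              · simp only [h1, h2, if_true, if_false] at hxy
                omega
              · simp only [h1, h2, if_false] at hxy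
                exact c1 x y ((hAA x).2 ⟨h1, hx⟩) ((hAA y).2 ⟨h2, hy⟩) (by omega)
          · intro x hx w hw
            by_cases h1 : x = v
            · simp only [h1, if_true] at hw ⊢
              have := (hNN w).1 hw
              refine ⟨this.2.2, ?_⟩
              simp only [this.2.1, if_false]
              omega
            · simp only [h1, if_false] at hw ⊢
              have := c2 x ((hAA x).2 ⟨h1, hx⟩) w hw
              have h2 := (hAA w).1 this.1
              refine ⟨h2.2, ?_⟩
              simp only [h2.1, if_false]
              omega
          · intro x y hx hy hxy hR hlt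
            by_cases h1 : x = v
            · simp only [h1, if_true]
              have hyv : y ≠ v := fun h => hxy (h1.trans h.symm)
              exact (hNN y).2 ⟨h1 ▸ hR, hyv, hy⟩
            · by_cases h2 : y = v
              · simp only [h2, if_true] at hlt
                omega
              · simp only [h1, h2, if_false] at hlt ⊢
                exact c3 x y ((hAA x).2 ⟨h1, hx⟩) ((hAA y).2 ⟨h2, hy⟩) hxy (u1 _ hR) (by omega)
          · intro x hx w hw w' hw' hlt
            by_cases h1 : x = v
            · simp only [h1, if_true] at hw hw'
              have e1 := (hNN w).1 hw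
              have e2 := (hNN w').1 hw'
              simp only [e1.2.1, e2.2.1, if_false] at hlt ⊢
              refine c3 w w' ((hAA w).2 e1.2) ((hAA w').2 e2.2) ?_ (u2 w hw w' hw') (by omega)
              rintro rfl
              omega
            · simp only [h1, if_false] at hw hw'
              have hx' := (hAA x).2 ⟨h1, hx⟩
              have e1 := (hAA w).1 (c2 x hx' w hw).1
              have e2 := (hAA w').1 (c2 x hx' w' hw').1
              simp only [e1.1, e2.1, if_false] at hlt ⊢
              exact c4 x hx' w hw w' hw' (by omega)
          · intro x hx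
            by_cases h1 : x = v
            · simp only [h1, if_true]
              exact u3
            · simp only [h1, if_false]
              exact c5 x ((hAA x).2 ⟨h1, hx⟩)

theorem partial_of_sch {n k R A : ℕ} {G : SimpleGraph (Fin n)} (h : Sch k R A)
    (hG : ∀ x y : Fin n, G.Adj x y → A.testBit x = true ∧ A.testBit y = true ∧
      R.testBit (16 * x + y) = true) : IsPartialKTree k G := by
  obtain ⟨p, L, c1, c2, c3, c4, c5⟩ := h
  refine partial_of_scheme G
    (fun x => if A.testBit x = true then (2 * p x : ℤ) else (2 * (x : ℕ) + 1 : ℤ))
    (fun x => if A.testBit x = true then {w : Fin n | (w : ℕ) ∈ L x} else ∅) ?_ ?_ ?_ ?_ ?_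
  · intro x y hxy
    have e : (if A.testBit x = true then (2 * p x : ℤ) else (2 * (x : ℕ) + 1 : ℤ)) =
      (if A.testBit y = true then (2 * p y : ℤ) else (2 * (y : ℕ) + 1 : ℤ)) := hxy
    by_cases hx : A.testBit x = true
    · by_cases hy : A.testBit y = true
      · rw [if_pos hx, if_pos hy] at e
        exact Fin.ext (c1 _ _ hx hy (by omega))
      · rw [if_pos hx, if_neg hy] at e
        omega
    · by_cases hy : A.testBit y = true
      · rw [if_neg hx, if_pos hy] at e
        omega
      · rw [if_neg hx, if_neg hy] at e
        exact Fin.ext (by omega)
  · intro x w hw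
    by_cases hx : A.testBit x = true
    · simp only [hx, if_true] at hw ⊢
      have := c2 _ hx _ hw
      simp only [this.1, if_true]
      omega
    · simp only [hx] at hw
      simp at hw
  · intro x y hxy hlt
    obtain ⟨hx, hy, hR⟩ := hG x y hxy
    simp only [hx, hy, if_true] at hlt ⊢
    exact c3 _ _ hx hy (fun h => hxy.ne (Fin.ext h)) hR (by omega)
  · intro x w w' hw hw' hlt
    by_cases hx : A.testBit x = true
    · simp only [hx, if_true] at hw hw'
      have e1 := c2 _ hx _ hw
      have e2 := c2 _ hx _ hw'
      simp only [e1.1, e2.1, if_true] at hlt ⊢
      exact c4 _ hx _ hw _ hw' (by omega)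
    · simp only [hx] at hw
      simp at hw
  · intro x
    by_cases hx : A.testBit x = true
    · simp only [hx, if_true]
      have := c5 _ hx
      refine le_trans ?_ this
      rw [← Function.Injective.encard_image (Fin.val_injective (n := n))]
      apply Set.encard_le_encard
      rintro _ ⟨w, hw, rfl⟩
      exact hw
    · simp only [hx]
      simp

end Pool.Agent.TW4
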