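import Pool.Agent.TW4.Cert

/-! An isomorphism invariant, and lists of certificates. -/

namespace Pool.Agent.TW4

open Classical in
/-- number of walks of length 2 -/
noncomputable def A2 {V : Type*} [Fintype V] (G : SimpleGraph V) (u v : V) : ℕ :=
  ∑ w, if G.Adj u w ∧ G.Adj w v then 1 else 0

open Classical in
/-- number of walks of length 3 -/
noncomputable def A3 {V : Type*} [Fintype V] (G : SimpleGraph V) (u v : V) : ℕ :=
  ∑ w, if G.Adj u w then A2 G w v else 0

/-- the sum of the cubes of the numbers of walks of length 3 -/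
noncomputable def Iv {V : Type*} [Fintype V] (G : SimpleGraph V) : ℕ :=
  ∑ u, ∑ v, A3 G u v ^ 3

theorem A2_iso {V W : Type*} [Fintype V] [Fintype W] {G : SimpleGraph V} {H : SimpleGraph W}
    (e : G ≃g H) (u v : V) : A2 H (e u) (e v) = A2 G u v := by
  unfold A2
  refine (Fintype.sum_equiv e.toEquiv _ _ ?_).symm
  intro w
  have h1 : H.Adj (e u) (e.toEquiv w) ↔ G.Adj u w := e.map_rel_iff
  have h2 : H.Adj (e.toEquiv w) (e v) ↔ G.Adj w v := e.map_rel_iff
  by_cases h : G.Adj u w ∧ G.Adj w v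
  · rw [if_pos h, if_pos ⟨h1.2 h.1, h2.2 h.2⟩]
  · rw [if_neg h, if_neg fun h' => h ⟨h1.1 h'.1, h2.1 h'.2⟩]

theorem A3_iso {V W : Type*} [Fintype V] [Fintype W] {G : SimpleGraph V} {H : SimpleGraph W}
    (e : G ≃g H) (u v : V) : A3 H (e u) (e v) = A3 G u v := by
  unfold A3
  refine (Fintype.sum_equiv e.toEquiv _ _ ?_).symm
  intro w
  have h1 : H.Adj (e u) (e.toEquiv w) ↔ G.Adj u w := e.map_rel_iff
  have h2 : A2 H (e.toEquiv w) (e v) = A2 G w v := A2_iso e w v
  by_cases h : G.Adj u w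
  · rw [if_pos h, if_pos (h1.2 h), h2]
  · rw [if_neg h, if_neg fun h' => h (h1.1 h')]

theorem Iv_iso {V W : Type*} [Fintype V] [Fintype W] {G : SimpleGraph V} {H : SimpleGraph W}
    (e : G ≃g H) : Iv H = Iv G := by
  unfold Iv
  refine (Fintype.sum_equiv e.toEquiv _ _ ?_).symm
  intro u
  refine Fintype.sum_equiv e.toEquiv _ _ ?_
  intro v
  have : A3 H (e.toEquiv u) (e.toEquiv v) = A3 G u v := A3_iso e u v
  rw [this]

theorem sumTo_eq (f : ℕ → ℕ) (n : ℕ) : sumTo f n = ∑ i : Fin n, f i := by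
  rw [Fin.sum_univ_eq_sum_range]
  induction n with
  | zero => simp [sumTo]
  | succ n ih => rw [sumTo, ih, Finset.sum_range_succ]

theorem inv_eq {n c R : ℕ} (h : rowsOk n c R = true) : inv R n = Iv (gr n c) := by
  have hadj := rows_spec h
  have h2 : ∀ u v : Fin n, P2 R n u v = A2 (gr n c) u v := by
    intro u v
    unfold P2 A2
    rw [sumTo_eq]
    refine Finset.sum_congr rfl ?_
    intro w _
    simp only [hadj]
    cases R.testBit (16 * (u : ℕ) + w) <;> cases R.testBit (16 * (w : ℕ) + v) <;> simp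
  have h3 : ∀ u v : Fin n, P3 R n u v = A3 (gr n c) u v := by
    intro u v
    unfold P3 A3
    rw [sumTo_eq]
    refine Finset.sum_congr rfl ?_
    intro w _
    simp only [hadj, h2]
    cases R.testBit (16 * (u : ℕ) + w) <;> simp
  unfold inv Iv
  rw [sumTo_eq]
  refine Finset.sum_congr rfl ?_
  intro u _
  rw [sumTo_eq]
  refine Finset.sum_congr rfl ?_
  intro v _
  rw [h3]

theorem Cert.ok_spec {n : ℕ} {x : Cert} (h : x.ok n = true) :
    IsObstruction 4 (gr n x.code) ∧ Iv (gr n x.code) = x.val := by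
  unfold Cert.ok at h
  rw [Bool.and_eq_true] at h
  refine ⟨cert_spec h.1, ?_⟩
  have h1 := h.1
  unfold certOk at h1
  rw [Bool.and_eq_true, Bool.and_eq_true, Bool.and_eq_true, Bool.and_eq_true] at h1
  rw [← inv_eq h1.1.1.1.2]
  simpa using h.2

/-- the conclusion for a list of codes of graphs of order n -/
def Good (n : ℕ) (cs : List ℕ) : Prop :=
  (∀ c ∈ cs, IsObstruction 4 (gr n c)) ∧
    cs.Pairwise fun c d => IsEmpty (gr n c ≃g gr n d)

theorem good_of {n : ℕ} {cs : List ℕ} (L : List Cert) (hL : ∀ x ∈ L, x.ok n = true)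
    (hcs : cs = L.map Cert.code) (hinv : (L.map Cert.val).Nodup) : Good n cs := by
  subst hcs
  refine ⟨?_, ?_⟩
  · intro c hc
    obtain ⟨x, hx, rfl⟩ := List.mem_map.1 hc
    exact (Cert.ok_spec (hL x hx)).1
  · rw [List.pairwise_map]
    have h1 : L.Pairwise fun x y => x.val ≠ y.val := List.pairwise_map.1 hinv
    have h2 := List.Pairwise.and_mem.1 h1
    refine h2.imp ?_
    rintro x y ⟨hx, hy, hne⟩
    refine ⟨fun e => hne ?_⟩
    rw [← (Cert.ok_spec (hL x hx)).2, ← (Cert.ok_spec (hL y hy)).2]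
    exact (Iv_iso e).symm

end Pool.Agent.TW4
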