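import Pool.Agent.TW4.Build

/-! Width is monotone under minors; brambles. -/

namespace Pool.Agent.TW4

variable {V W : Type*}

/-- walking inside a connected induced subgraph -/
theorem walk_induct {G : SimpleGraph V} {A : Set V} (hA : (G.induce A).Connected)
    {a b : V} (ha : a ∈ A) (hb : b ∈ A) (P : V → Prop) (h0 : P a)
    (hs : ∀ x y, x ∈ A → y ∈ A → P x → G.Adj x y → P y) : P b := by
  have hr : (G.induce A).Reachable ⟨a, ha⟩ ⟨b, hb⟩ := hA.preconnected _ _
  obtain ⟨w⟩ := hr
  have key : ∀ (x y : A), (G.induce A).Walk x y → P x.1 → P y.1 := by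
    intro x y w
    induction w with
    | nil => exact fun h => h
    | @cons u v t huv _ ih =>
      intro h
      exact ih (hs u.1 v.1 u.2 v.2 h huv)
  exact key _ _ w h0

theorem width_minor [Finite V] {k : ℕ} {G : SimpleGraph V} {H : SimpleGraph W}
    {p : V → ℤ} (hG : Width G p k) (hm : IsMinor H G) : ∃ q, Width H q k := by
  classical
  have := Fintype.ofFinite V
  obtain ⟨f, hf, hadj⟩ := hm
  have hne : ∀ w, ∃ x, f x = some w ∧ ∀ y, f y = some w → p y ≤ p x := by
    intro w
    have hnon : (Finset.univ.filter (fun x => f x = some w)).Nonempty := by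
      obtain ⟨⟨x, hx⟩⟩ := (hf w).nonempty
      exact ⟨x, by simpa using hx⟩
    obtain ⟨x, hx, hmax⟩ := Finset.exists_max_image _ p hnon
    refine ⟨x, by simpa using hx, fun y hy => hmax y (by simpa using hy)⟩
  choose t ht hmax using hne
  have htinj : Function.Injective t := by
    intro a b h
    have h1 := ht a
    rw [h, ht b] at h1
    exact (Option.some.inj h1).symm
  refine ⟨fun w => p (t w), hG.1.comp htinj, fun w => ?_⟩
  -- all branch sets reached lie in the component
  have hcomp : ∀ y, Comp H (fun w => p (t w)) w y → ∀ v, f v = some y → Comp G p (t w) v := by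
    intro y hy
    induction hy with
    | refl =>
      intro v hv
      refine walk_induct (hf w) (a := t w) (b := v) (ht w) hv (fun v => Comp G p (t w) v)
        Comp.refl ?_
      intro a b ha hb hc hab
      by_cases hbt : b = t w
      · exact hbt ▸ Comp.refl
      · refine Comp.step hc hab (lt_of_le_of_ne (hmax w b hb) fun h => hbt (hG.1 h))
    | @step x y _ hxy hlt ih =>
      intro v hv
      obtain ⟨a, b, ha, hb, hab⟩ := hadj x y hxy
      have hbc : Comp G p (t w) b := Comp.step (ih a ha) hab (lt_of_le_of_lt (hmax y b hb) hlt)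
      refine walk_induct (hf y) (a := b) (b := v) hb hv (fun v => Comp G p (t w) v) hbc ?_
      intro c d hc hd hcc hcd
      exact Comp.step hcc hcd (lt_of_le_of_lt (hmax y d hd) hlt)
  have hex : ∀ y, y ∈ Qs H (fun w => p (t w)) w → ∃ u, f u = some y ∧ u ∈ Qs G p (t w) := by
    rintro y ⟨hlt, x, hx, hxy⟩
    obtain ⟨a, b, ha, hb, hab⟩ := hadj x y hxy
    have hac := hcomp x hx a ha
    have hyw : ∀ c, f c = some y → c ≠ t w := by
      rintro c hc rfl
      rw [ht w] at hc
      rw [Option.some.inj hc] at hlt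
      exact lt_irrefl _ hlt
    -- either a vertex of Q was found, or we are still in the component
    have hfin : (∃ u, f u = some y ∧ u ∈ Qs G p (t w)) ∨ Comp G p (t w) (t y) := by
      refine walk_induct (hf y) (a := b) (b := t y) hb (ht y)
        (fun v => (∃ u, f u = some y ∧ u ∈ Qs G p (t w)) ∨ Comp G p (t w) v) ?_ ?_
      · rcases lt_or_ge (p (t w)) (p b) with h | h
        · exact Or.inl ⟨b, hb, h, a, hac, hab⟩
        · exact Or.inr (Comp.step hac hab (lt_of_le_of_ne h fun h' => hyw b hb (hG.1 h')))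
      · rintro c d hc hd (h | h) hcd
        · exact Or.inl h
        · rcases lt_or_ge (p (t w)) (p d) with h' | h'
          · exact Or.inl ⟨d, hd, h', c, h, hcd⟩
          · exact Or.inr (Comp.step h hcd (lt_of_le_of_ne h' fun h'' => hyw d hd (hG.1 h'')))
    rcases hfin with h | h
    · exact h
    · exact absurd h.le (not_le.2 hlt)
  have : Nonempty V := ⟨t w⟩
  choose! g hg1 hg2 using hex
  refine le_trans (Set.encard_le_encard_of_injOn (f := g) (t := Qs G p (t w)) ?_ ?_) (hG.2 (t w))
  · intro y hy
    exact hg2 y hy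
  · intro y hy z hz h
    have h1 := hg1 y hy
    rw [h, hg1 z hz] at h1
    exact (Option.some.inj h1).symm

/-- partial k-trees are closed under minors -/
theorem partial_minor [Finite V] [Finite W] {k : ℕ} {G : SimpleGraph V} {H : SimpleGraph W}
    (hG : IsPartialKTree k G) (hm : IsMinor H G) : IsPartialKTree k H := by
  obtain ⟨p, hp⟩ := width_of_partial hG
  obtain ⟨q, hq⟩ := width_minor hp hm
  exact partial_of_width hq

/-- A bramble (a family of connected, pairwise touching vertex sets) of a partial k-tree is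
hit by a set with at most k + 1 elements. -/
theorem bramble_hit [Finite V] {k : ℕ} {G : SimpleGraph V} (hG : IsPartialKTree k G)
    (B : Set (Set V)) (hne : B.Nonempty) (hc : ∀ b ∈ B, (G.induce b).Connected)
    (ht : ∀ b ∈ B, ∀ c ∈ B, ∃ x ∈ b, ∃ y ∈ c, x = y ∨ G.Adj x y) :
    ∃ X : Set V, X.encard ≤ k + 1 ∧ ∀ b ∈ B, ∃ x ∈ X, x ∈ b := by
  classical
  have := Fintype.ofFinite V
  obtain ⟨p, hp, hw⟩ := width_of_partial hG
  -- vertices v such that some bramble set lies below v
  have hS : (Finset.univ.filter (fun v => ∃ b ∈ B, ∀ x ∈ b, p x ≤ p v)).Nonempty := by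
    obtain ⟨b, hb⟩ := hne
    obtain ⟨⟨x, hx⟩⟩ := (hc b hb).nonempty
    obtain ⟨v, -, hv⟩ := Finset.exists_max_image Finset.univ p ⟨x, Finset.mem_univ x⟩
    exact ⟨v, by simpa using ⟨b, hb, fun y _ => hv y (Finset.mem_univ y)⟩⟩
  obtain ⟨v, hv, hmin⟩ := Finset.exists_min_image _ p hS
  simp only [Finset.mem_filter, Finset.mem_univ, true_and] at hv hmin
  obtain ⟨b, hb, hbv⟩ := hv
  -- no bramble set is strictly below v
  have hstrict : ∀ c ∈ B, ∃ x ∈ c, p v ≤ p x := by
    intro c hcB
    by_contra hcon
    push Not at hcon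
    obtain ⟨⟨x0, hx0⟩⟩ := (hc c hcB).nonempty
    obtain ⟨x, hx, hxm⟩ := Finset.exists_max_image (Finset.univ.filter (fun x => x ∈ c)) p
      ⟨x0, by simpa using hx0⟩
    have hxc : x ∈ c := by simpa using hx
    have := hmin x ⟨c, hcB, fun y hy => hxm y (by simpa using hy)⟩
    exact absurd this (not_le.2 (hcon x hxc))
  have hvb : v ∈ b := by
    obtain ⟨x, hx, hvx⟩ := hstrict b hb
    have : p x = p v := le_antisymm (hbv x hx) hvx
    exact hp this ▸ hx
  have hbcomp : ∀ x ∈ b, Comp G p v x := by
    intro x hx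
    refine walk_induct (hc b hb) (a := v) (b := x) hvb hx (fun x => Comp G p v x) Comp.refl ?_
    intro y z _ hz hy hyz
    by_cases hzv : z = v
    · exact hzv ▸ Comp.refl
    · exact Comp.step hy hyz (lt_of_le_of_ne (hbv z hz) fun h => hzv (hp h))
  refine ⟨insert v (Qs G p v), ?_, ?_⟩
  · refine (Set.encard_insert_le _ _).trans ?_
    exact add_le_add (hw v) le_rfl
  · intro c hcB
    by_cases hvc : v ∈ c
    · exact ⟨v, Set.mem_insert _ _, hvc⟩
    obtain ⟨z, hz, hvz⟩ := hstrict c hcB
    have hvz' : p v < p z := by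
      refine lt_of_le_of_ne hvz ?_
      intro h
      exact hvc (hp h ▸ hz)
    obtain ⟨x, hx, y, hy, hxy⟩ := ht b hb c hcB
    have hfin : (∃ u ∈ c, u ∈ Qs G p v) ∨ Comp G p v z := by
      refine walk_induct (hc c hcB) (a := y) (b := z) hy hz
        (fun s => (∃ u ∈ c, u ∈ Qs G p v) ∨ Comp G p v s) ?_ ?_
      · rcases hxy with rfl | hxy
        · exact Or.inr (hbcomp x hx)
        · rcases lt_or_ge (p v) (p y) with h | h
          · exact Or.inl ⟨y, hy, h, x, hbcomp x hx, hxy⟩
          · refine Or.inr (Comp.step (hbcomp x hx) hxy (lt_of_le_of_ne h ?_))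
            intro h'
            exact hvc (hp h' ▸ hy)
      · rintro s r hs hr (h | h) hsr
        · exact Or.inl h
        · rcases lt_or_ge (p v) (p r) with h' | h'
          · exact Or.inl ⟨r, hr, h', s, h, hsr⟩
          · refine Or.inr (Comp.step h hsr (lt_of_le_of_ne h' ?_))
            intro h''
            exact hvc (hp h'' ▸ hr)
    rcases hfin with ⟨u, hu, hu'⟩ | h
    · exact ⟨u, Set.mem_insert_of_mem _ hu', hu⟩
    · exact absurd h.le (not_le.2 hvz')

end Pool.Agent.TW4
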