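import Pool.Agent.TW4.Defs

/-! Elimination orders: `Comp`, `Qs`, and the width of the natural order of a k-tree. -/

namespace Pool.Agent.TW4

variable {V : Type*}

/-- Vertices reached from `v` through vertices earlier than `v`. -/
inductive Comp (G : SimpleGraph V) (p : V → ℤ) (v : V) : V → Prop
  | refl : Comp G p v v
  | step {x y : V} : Comp G p v x → G.Adj x y → p y < p v → Comp G p v y

/-- The later neighbours of `v` in the fill graph of the order `p`. -/
def Qs (G : SimpleGraph V) (p : V → ℤ) (v : V) : Set V :=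
  {w | p v < p w ∧ ∃ x, Comp G p v x ∧ G.Adj x w}

theorem Comp.le {G : SimpleGraph V} {p : V → ℤ} {v x : V} (h : Comp G p v x) : p x ≤ p v := by
  cases h with
  | refl => exact le_rfl
  | step _ _ h => exact h.le

/-- the order of the k-tree -/
def idx (n : ℕ) : Fin n → ℤ := fun i => -(i.val : ℤ)

theorem idx_inj (n : ℕ) : Function.Injective (idx n) := by
  intro a b h
  simp only [idx, neg_inj, Nat.cast_inj] at h
  exact Fin.ext h

theorem ktree_width {k n : ℕ} {T : SimpleGraph (Fin n)} (hT : IsKTree k n T) :
    ∀ v, (Qs T (idx n) v).encard ≤ k := by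
  induction hT with
  | complete =>
    intro v
    have h1 : Qs (⊤ : SimpleGraph (Fin (k + 1))) (idx (k + 1)) v ⊆ ↑(Finset.Iio v) := by
      rintro w ⟨hw, -⟩
      simp only [idx, neg_lt_neg_iff, Nat.cast_lt] at hw
      simpa using hw
    refine (Set.encard_le_encard h1).trans ?_
    rw [Set.encard_coe_eq_coe_finsetCard, Fin.card_Iio]
    exact_mod_cast Nat.lt_succ_iff.1 v.2
  | @add n G H S hG hS hc hH hl ih =>
    have key : ∀ u : Fin n, ∀ y, Comp H (idx (n + 1)) u.castSucc y →
        (∃ y', y = Fin.castSucc y' ∧ Comp G (idx n) u y') ∨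
        (y = Fin.last n ∧ ∃ x ∈ S, Comp G (idx n) u x) := by
      intro u y hy
      induction hy with
      | refl => exact Or.inl ⟨u, rfl, Comp.refl⟩
      | @step x y _ hxy hlt ihx =>
        rcases ihx with ⟨x', rfl, hx'⟩ | ⟨rfl, x0, hx0, hx0'⟩
        · rcases Fin.eq_castSucc_or_eq_last y with ⟨y', rfl⟩ | rfl
          · refine Or.inl ⟨y', rfl, Comp.step hx' ((hH _ _).1 hxy) ?_⟩
            simpa [idx] using hlt
          · exact Or.inr ⟨rfl, x', (hl _).1 hxy, hx'⟩
        · rcases Fin.eq_castSucc_or_eq_last y with ⟨y', rfl⟩ | rfl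
          · have hy' : y' ∈ S := (hl _).1 hxy.symm
            refine Or.inl ⟨y', rfl, ?_⟩
            by_cases he : x0 = y'
            · exact he ▸ hx0'
            · refine Comp.step hx0' (hc hx0 hy' he) ?_
              simpa [idx] using hlt
          · exact absurd hxy (H.loopless.irrefl _)
    intro v
    rcases Fin.eq_castSucc_or_eq_last v with ⟨u, rfl⟩ | rfl
    · have hsub : Qs H (idx (n + 1)) u.castSucc ⊆ Fin.castSucc '' Qs G (idx n) u := by
        rintro w ⟨hw, x, hx, hxw⟩
        rcases Fin.eq_castSucc_or_eq_last w with ⟨w', rfl⟩ | rfl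
        · refine ⟨w', ⟨by simpa [idx] using hw, ?_⟩, rfl⟩
          rcases key u x hx with ⟨x', rfl, hx'⟩ | ⟨rfl, x0, hx0, hx0'⟩
          · exact ⟨x', hx', (hH _ _).1 hxw⟩
          · have hw' : w' ∈ S := (hl _).1 hxw.symm
            refine ⟨x0, hx0', hc hx0 hw' ?_⟩
            rintro rfl
            have h1 := hx0'.le
            have h2 : idx n u < idx n x0 := by simpa [idx] using hw
            omega
        · exfalso
          simp only [idx, Fin.val_last, Fin.val_castSucc] at hw
          have := u.2
          omega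
      refine (Set.encard_le_encard hsub).trans ?_
      exact (Set.encard_image_le _ _).trans (ih u)
    · have hcomp : ∀ y, Comp H (idx (n + 1)) (Fin.last n) y → y = Fin.last n := by
        intro y hy
        cases hy with
        | refl => rfl
        | step _ _ hlt =>
          exfalso
          simp only [idx, Fin.val_last] at hlt
          have := y.2
          omega
      have hsub : Qs H (idx (n + 1)) (Fin.last n) ⊆ Fin.castSucc '' (S : Set (Fin n)) := by
        rintro w ⟨hw, x, hx, hxw⟩
        have := hcomp x hx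
        subst this
        rcases Fin.eq_castSucc_or_eq_last w with ⟨w', rfl⟩ | rfl
        · exact ⟨w', (hl _).1 hxw.symm, rfl⟩
        · exact absurd hxw (H.loopless.irrefl _)
      refine (Set.encard_le_encard hsub).trans ?_
      refine (Set.encard_image_le _ _).trans ?_
      rw [Set.encard_coe_eq_coe_finsetCard, hS]

/-- Width of an elimination order. -/
def Width (G : SimpleGraph V) (p : V → ℤ) (k : ℕ) : Prop :=
  Function.Injective p ∧ ∀ v, (Qs G p v).encard ≤ k

theorem width_of_partial {k : ℕ} {G : SimpleGraph V} (h : IsPartialKTree k G) :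
    ∃ p, Width G p k := by
  obtain ⟨n, T, f, hT, hf, hG⟩ := h
  refine ⟨fun v => idx n (f v), (idx_inj n).comp hf, fun v => ?_⟩
  have hc : ∀ y, Comp G (fun v => idx n (f v)) v y → Comp T (idx n) (f v) (f y) := by
    intro y hy
    induction hy with
    | refl => exact Comp.refl
    | step _ ha hlt ih => exact Comp.step ih (hG _ _ ha) hlt
  refine le_trans (Set.encard_le_encard_of_injOn (f := f) (t := Qs T (idx n) (f v)) ?_ hf.injOn)
    (ktree_width hT (f v))
  rintro w ⟨hw, x, hx, hxw⟩
  exact ⟨hw, f x, hc x hx, hG _ _ hxw⟩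

end Pool.Agent.TW4
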